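import Mathlib

/-!
# MP_1d1f41_co: the degree anti-Ramsey number of graphs with many pendant edges at a vertex
-/

set_option autoImplicit false

namespace Pool.Agent.Results.MP_1d1f41_co.ManyPendants

open Finset

/-- `c` is a proper edge colouring of `G` (only the colours of the edges of `G` matter). -/
def IsProper {V : Type} (G : SimpleGraph V) (c : Sym2 V → ℕ) : Prop :=
  ∀ x y z, G.Adj x y → G.Adj x z → y ≠ z → c s(x, y) ≠ c s(x, z)

/-- `G` contains a copy of `H` whose edges have pairwise distinct colours. -/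
def HasRainbow {U V : Type} (H : SimpleGraph U) (G : SimpleGraph V) (c : Sym2 V → ℕ) : Prop :=
  ∃ φ : U → V, Function.Injective φ ∧ (∀ a b, H.Adj a b → G.Adj (φ a) (φ b)) ∧
    ∀ a b a' b', H.Adj a b → H.Adj a' b' → s(a, b) ≠ s(a', b') →
      c s(φ a, φ b) ≠ c s(φ a', φ b')

/-- The degree anti-Ramsey number: the least `r` for which there is a finite graph of maximum degree
`r` each proper edge colouring of which contains a rainbow copy of `H`. -/
noncomputable def ARd {U : Type} (H : SimpleGraph U) : ℕ :=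
  sInf {r | ∃ (V : Type) (_ : Fintype V) (G : SimpleGraph V), (∀ x, {y | G.Adj x y}.ncard ≤ r) ∧
    (∃ x, {y | G.Adj x y}.ncard = r) ∧ ∀ c, IsProper G c → HasRainbow H G c}

/-- Adjacency in `H₀` with `k` pendant edges attached at `v₀`. -/
def pendAdj {q : ℕ} (H₀ : SimpleGraph (Fin q)) (v₀ : Fin q) (k : ℕ) :
    Fin q ⊕ Fin k → Fin q ⊕ Fin k → Prop
  | Sum.inl i, Sum.inl j => H₀.Adj i j
  | Sum.inl i, Sum.inr _ => i = v₀
  | Sum.inr _, Sum.inl j => j = v₀
  | Sum.inr _, Sum.inr _ => False

/-- The graph `H₀` with `k` pendant edges attached at `v₀`. -/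
def pend {q : ℕ} (H₀ : SimpleGraph (Fin q)) (v₀ : Fin q) (k : ℕ) : SimpleGraph (Fin q ⊕ Fin k) where
  Adj := pendAdj H₀ v₀ k
  symm := ⟨fun a b h => by
    rcases a with i | i <;> rcases b with j | j <;> simp only [pendAdj] at h ⊢
    · exact h.symm
    · exact h
    · exact h⟩
  loopless := ⟨fun a h => by
    rcases a with i | i <;> simp only [pendAdj] at h
    exact H₀.irrefl h⟩

theorem pend_adj_cases {q k : ℕ} {H₀ : SimpleGraph (Fin q)} {v₀ : Fin q} {a b : Fin q ⊕ Fin k}
    (h : (pend H₀ v₀ k).Adj a b) :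
    (∃ t, s(a, b) = s(Sum.inl v₀, Sum.inr t)) ∨
      ∃ i j, H₀.Adj i j ∧ s(a, b) = s(Sum.inl i, Sum.inl j) := by
  rcases a with i | i <;> rcases b with j | j <;> simp only [pend, pendAdj] at h
  · exact Or.inr ⟨i, j, h, rfl⟩
  · exact Or.inl ⟨j, by rw [h]⟩
  · exact Or.inl ⟨i, by rw [h]; exact Sym2.eq_swap⟩

/-- The number of edges of `H₀` with `k` pendant edges. -/
theorem pend_edges {q : ℕ} (H₀ : SimpleGraph (Fin q)) (v₀ : Fin q) (k : ℕ) :
    (pend H₀ v₀ k).edgeSet.ncard = H₀.edgeSet.ncard + k := by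
  classical
  let f : Fin k → Sym2 (Fin q ⊕ Fin k) := fun t => s(Sum.inl v₀, Sum.inr t)
  let g : Fin q → Fin q ⊕ Fin k := fun i => Sum.inl i
  have hg : Function.Injective g := Sum.inl_injective
  have hf : Function.Injective f := by
    intro u u' h
    have h1 : (Sum.inr u : Fin q ⊕ Fin k) ∈ s((Sum.inl v₀ : Fin q ⊕ Fin k), Sum.inr u') := by
      rw [← (show s((Sum.inl v₀ : Fin q ⊕ Fin k), Sum.inr u) = s(Sum.inl v₀, Sum.inr u') from h)]
      exact Sym2.mem_mk_right _ _
    rw [Sym2.mem_iff] at h1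
    rcases h1 with h1 | h1
    · exact absurd h1 (by simp)
    · exact Sum.inr_injective h1
  have hE : (pend H₀ v₀ k).edgeSet = Set.range f ∪ Sym2.map g '' H₀.edgeSet := by
    ext e
    induction e using Sym2.ind with
    | _ a b =>
      rw [SimpleGraph.mem_edgeSet]
      constructor
      · intro h
        rcases pend_adj_cases h with ⟨u, h1⟩ | ⟨i, j, h1, h2⟩
        · exact Or.inl ⟨u, h1.symm⟩
        · exact Or.inr ⟨s(i, j), h1, h2.symm⟩
      · rintro (⟨u, h1⟩ | ⟨e, h1, h2⟩)
        · have h1' : s((Sum.inl v₀ : Fin q ⊕ Fin k), Sum.inr u) = s(a, b) := h1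
          rw [← SimpleGraph.mem_edgeSet, ← h1', SimpleGraph.mem_edgeSet]
          show v₀ = v₀
          rfl
        · induction e using Sym2.ind with
          | _ i j =>
            have h2' : s(g i, g j) = s(a, b) := h2
            rw [← SimpleGraph.mem_edgeSet, ← h2', SimpleGraph.mem_edgeSet]
            exact h1
  have hdisj : Disjoint (Set.range f) (Sym2.map g '' H₀.edgeSet) := by
    rw [Set.disjoint_left]
    rintro e ⟨u, rfl⟩ ⟨e', _, h2⟩
    induction e' using Sym2.ind with
    | _ i j =>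
      have h3 : s(g i, g j) = s((Sum.inl v₀ : Fin q ⊕ Fin k), Sum.inr u) := h2
      have h4 : (Sum.inr u : Fin q ⊕ Fin k) ∈ s(g i, g j) := by
        rw [h3]
        exact Sym2.mem_mk_right _ _
      rw [Sym2.mem_iff] at h4
      rcases h4 with h4 | h4
      · exact absurd h4 (by simp [g])
      · exact absurd h4 (by simp [g])
  rw [hE, Set.ncard_union_eq hdisj (Set.toFinite _) (Set.toFinite _),
    Set.ncard_image_of_injective _ (Sym2.map.injective hg), ← Set.image_univ,
    Set.ncard_image_of_injective _ hf, Set.ncard_univ, Nat.card_eq_fintype_card, Fintype.card_fin]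
  omega

section General

variable {V : Type} [Fintype V] [DecidableEq V] {G : SimpleGraph V} {c : Sym2 V → ℕ}

/-- On an odd number of vertices no colour of a proper edge colouring occurs at all vertices. -/
theorem exists_missing (hn : Odd (Fintype.card V)) (hc : IsProper G c) (α : ℕ) :
    ∃ v : V, ∀ w, G.Adj v w → c s(v, w) ≠ α := by
  by_contra hall
  push Not at hall
  choose f hf1 hf2 using hall
  have hff : Function.Involutive f := by
    intro v
    by_contra hne
    have h1 : c s(f v, v) = α := by rw [Sym2.eq_swap]; exact hf2 v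
    exact hc (f v) v (f (f v)) (hf1 v).symm (hf1 (f v)) (Ne.symm hne) (h1.trans (hf2 (f v)).symm)
  have hcard : ¬ 2 ∣ Fintype.card V := fun h =>
    (Nat.not_even_iff_odd.2 hn) (even_iff_two_dvd.2 h)
  obtain ⟨a, ha⟩ := Equiv.Perm.exists_fixed_point_of_prime (p := 2) (n := 1) hcard
    (σ := hff.toPerm f) (by
      rw [pow_one, pow_two]
      ext v
      simp [Equiv.Perm.mul_apply, hff v])
  exact (hf1 a).ne ha.symm

/-- All edges of `G` inside `W` have different colours. -/
def RB (G : SimpleGraph V) (c : Sym2 V → ℕ) (W : Finset V) : Prop :=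
  ∀ a ∈ W, ∀ b ∈ W, ∀ a' ∈ W, ∀ b' ∈ W, G.Adj a b → G.Adj a' b' → s(a, b) ≠ s(a', b') →
    c s(a, b) ≠ c s(a', b')

theorem RB_insert (hc : IsProper G c) (W : Finset V) (hW : RB G c W) (z : V)
    (hzb : ∀ u ∈ W, G.Adj u z → ∀ a ∈ W, ∀ b ∈ W, G.Adj a b → c s(u, z) ≠ c s(a, b)) :
    RB G c (insert z W) := by
  intro a ha b hb a' ha' b' hb' hab hab' hne
  rw [mem_insert] at ha hb ha' hb'
  have key : ∀ a b : V, (a = z ∨ a ∈ W) → (b = z ∨ b ∈ W) → G.Adj a b →
      (∃ u ∈ W, G.Adj u z ∧ s(a, b) = s(u, z)) ∨ (a ∈ W ∧ b ∈ W) := by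
    intro a b h1 h2 h
    rcases h1 with h1 | h1 <;> rcases h2 with h2 | h2
    · exact absurd (h1.trans h2.symm) h.ne
    · exact Or.inl ⟨b, h2, by rw [← h1]; exact h.symm, by rw [h1]; exact Sym2.eq_swap⟩
    · exact Or.inl ⟨a, h1, by rw [← h2]; exact h, by rw [h2]⟩
    · exact Or.inr ⟨h1, h2⟩
  rcases key a b ha hb hab with ⟨u, hu, hu1, h1⟩ | ⟨h1, h1'⟩ <;>
    rcases key a' b' ha' hb' hab' with ⟨u', hu', hu1', h2⟩ | ⟨h2, h2'⟩
  · rw [h1, h2] at hne ⊢
    have huu : u ≠ u' := fun h => hne (by rw [h])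
    rw [Sym2.eq_swap, Sym2.eq_swap (a := u')]
    exact hc z u u' hu1.symm hu1'.symm huu
  · rw [h1]
    exact hzb u hu hu1 a' h2 b' h2' hab'
  · rw [h2]
    exact (hzb u' hu' hu1' a h1 b h1' hab).symm
  · exact hW a h1 b h1' a' h2 b' h2' hab hab' hne

theorem extend (hc : IsProper G c) (W : Finset V) (hW : RB G c W) (T : Finset V)
    (hT : W.card + W.card ^ 3 < T.card) :
    ∃ z ∈ T, z ∉ W ∧ RB G c (insert z W) := by
  classical
  let bad : Finset V := (W ×ˢ (W ×ˢ W)).biUnion fun t =>
    univ.filter fun z => G.Adj t.1 z ∧ c s(t.1, z) = c s(t.2.1, t.2.2)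
  have hbad : bad.card ≤ W.card ^ 3 := by
    refine (card_biUnion_le).trans ?_
    have h1 : ∀ t ∈ W ×ˢ (W ×ˢ W),
        (univ.filter fun z => G.Adj t.1 z ∧ c s(t.1, z) = c s(t.2.1, t.2.2)).card ≤ 1 := by
      intro t _
      rw [card_le_one]
      intro a ha b hb
      rw [mem_filter] at ha hb
      by_contra hab
      exact hc t.1 a b ha.2.1 hb.2.1 hab (ha.2.2.trans hb.2.2.symm)
    refine (sum_le_sum h1).trans ?_
    rw [sum_const, smul_eq_mul, mul_one, card_product, card_product]
    apply le_of_eq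
    ring
  have h2 : ∃ z ∈ T, z ∉ W ∪ bad := by
    by_contra h
    push Not at h
    have h4 := card_le_card (show T ⊆ W ∪ bad from fun z hz => h z hz)
    have h5 := card_union_le W bad
    omega
  obtain ⟨z, hzT, hz⟩ := h2
  rw [mem_union, not_or] at hz
  refine ⟨z, hzT, hz.1, RB_insert hc W hW z ?_⟩
  intro u hu huz a ha b hb _ h
  apply hz.2
  rw [mem_biUnion]
  refine ⟨(u, (a, b)), by simp [hu, ha, hb], ?_⟩
  rw [mem_filter]
  exact ⟨mem_univ _, huz, h⟩

/-- Adding the leaves: a rainbow copy `g` of `H₀` in which an edge has a colour missing at `g v₀`. -/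
theorem add_leaves {q : ℕ} (H₀ : SimpleGraph (Fin q)) (v₀ x₀ y₀ : Fin q) (h0 : H₀.Adj x₀ y₀) (k : ℕ)
    (hc : IsProper G c) (g : Fin q → V) (hg : Function.Injective g)
    (ha : ∀ i j, H₀.Adj i j → G.Adj (g i) (g j))
    (hb : ∀ i, i ≠ v₀ → ¬ H₀.Adj v₀ i → ¬ G.Adj (g v₀) (g i))
    (hr : ∀ i j i' j', H₀.Adj i j → H₀.Adj i' j' → s(i, j) ≠ s(i', j') →
      c s(g i, g j) ≠ c s(g i', g j'))
    (hmiss : ∀ w, G.Adj (g v₀) w → c s(g v₀, w) ≠ c s(g x₀, g y₀))
    (hdeg : H₀.edgeSet.ncard + k ≤ {w | G.Adj (g v₀) w}.ncard + 1) :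
    HasRainbow (pend H₀ v₀ k) G c := by
  classical
  let E : Finset (Sym2 (Fin q)) := H₀.edgeSet.toFinset
  have hE : E.card = H₀.edgeSet.ncard := (Set.ncard_eq_toFinset_card' _).symm
  have he0 : s(x₀, y₀) ∈ E := by
    rw [Set.mem_toFinset]
    exact h0
  let bad : Finset V := (E.erase s(x₀, y₀)).biUnion fun e =>
    univ.filter fun w => G.Adj (g v₀) w ∧ c s(g v₀, w) = c (e.map g)
  have hbad : bad.card ≤ H₀.edgeSet.ncard - 1 := by
    refine (card_biUnion_le).trans ?_
    have h1 : ∀ e ∈ E.erase s(x₀, y₀),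
        (univ.filter fun w => G.Adj (g v₀) w ∧ c s(g v₀, w) = c (e.map g)).card ≤ 1 := by
      intro t _
      rw [card_le_one]
      intro a ha b hb
      rw [mem_filter] at ha hb
      by_contra hab
      exact hc (g v₀) a b ha.2.1 hb.2.1 hab (ha.2.2.trans hb.2.2.symm)
    refine (sum_le_sum h1).trans ?_
    rw [sum_const, smul_eq_mul, mul_one, card_erase_of_mem he0, hE]
  have hEpos : 1 ≤ H₀.edgeSet.ncard := by
    rw [← hE]
    exact card_pos.2 ⟨_, he0⟩
  let D : Finset V := univ.filter fun w => G.Adj (g v₀) w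
  have hD : D.card = {w | G.Adj (g v₀) w}.ncard := by
    rw [Set.ncard_eq_toFinset_card']
    congr 1
    ext w
    simp [D]
  have hgood : k ≤ (D \ bad).card := by
    have h1 := le_card_sdiff bad D
    omega
  obtain ⟨A, hA1, hA2⟩ := exists_subset_card_eq hgood
  let e : A ≃ Fin k := Finset.equivFinOfCardEq hA2
  let l : Fin k → V := fun t => (e.symm t : V)
  have hl1 : Function.Injective l := fun s t h => e.symm.injective (Subtype.ext h)
  have hlA : ∀ t, l t ∈ D \ bad := fun t => hA1 (e.symm t).2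
  have hlD : ∀ t, G.Adj (g v₀) (l t) := fun t => (mem_filter.1 (mem_sdiff.1 (hlA t)).1).2
  have hlc : ∀ t i j, H₀.Adj i j → c s(g v₀, l t) ≠ c s(g i, g j) := by
    intro t i j hadj h
    by_cases h1 : s(i, j) = s(x₀, y₀)
    · have h2 : s(g i, g j) = s(g x₀, g y₀) := by
        have := congrArg (Sym2.map g) h1
        rw [Sym2.map_mk, Sym2.map_mk] at this
        exact this
      rw [h2] at h
      exact hmiss (l t) (hlD t) h
    · apply (mem_sdiff.1 (hlA t)).2
      rw [mem_biUnion]
      refine ⟨s(i, j), mem_erase.2 ⟨h1, ?_⟩, ?_⟩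
      · rw [Set.mem_toFinset]
        exact hadj
      · rw [mem_filter]
        exact ⟨mem_univ _, hlD t, h⟩
  have hlg : ∀ t i, l t ≠ g i := by
    intro t i h
    have h1 := hlD t
    rw [h] at h1
    by_cases hi : i = v₀
    · rw [hi] at h1
      exact h1.ne rfl
    · by_cases hvi : H₀.Adj v₀ i
      · exact hlc t v₀ i hvi (by rw [h])
      · exact hb i hi hvi h1
  let φ : Fin q ⊕ Fin k → V := fun
    | Sum.inl i => g i
    | Sum.inr t => l t
  have hφ : Function.Injective φ := by
    rintro (i | i) (j | j) h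
    · rw [hg h]
    · exact absurd (show g i = l j from h).symm (hlg j i)
    · exact absurd (show l i = g j from h) (hlg i j)
    · rw [hl1 h]
  refine ⟨φ, hφ, ?_, ?_⟩
  · intro a b hab
    have m1 : s(φ a, φ b) = Sym2.map φ s(a, b) := rfl
    rw [← SimpleGraph.mem_edgeSet, m1]
    rcases pend_adj_cases hab with ⟨u, h1⟩ | ⟨i, j, hadj, h1⟩
    · rw [h1]
      exact hlD u
    · rw [h1]
      exact ha i j hadj
  · intro a b a' b' hab hab' hne
    have m1 : s(φ a, φ b) = Sym2.map φ s(a, b) := rfl
    have m2 : s(φ a', φ b') = Sym2.map φ s(a', b') := rfl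
    rw [m1, m2]
    rcases pend_adj_cases hab with ⟨u, h1⟩ | ⟨i, j, hadj, h1⟩ <;>
      rcases pend_adj_cases hab' with ⟨u', h2⟩ | ⟨i', j', hadj', h2⟩
    · rw [h1, h2] at hne ⊢
      have huu : u ≠ u' := fun h => hne (by rw [h])
      show c s(g v₀, l u) ≠ c s(g v₀, l u')
      exact hc _ _ _ (hlD u) (hlD u') (fun h => huu (hl1 h))
    · rw [h1, h2]
      exact hlc u i' j' hadj'
    · rw [h1, h2]
      exact (hlc u' i j hadj).symm
    · rw [h1, h2] at hne ⊢
      show c s(g i, g j) ≠ c s(g i', g j')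
      refine hr i j i' j' hadj hadj' ?_
      intro h
      apply hne
      rw [← Sym2.map_mk, ← Sym2.map_mk, h]

end General


/-! ### The host graph -/

/-- The vertices of the host graph: `B + 1` blocks with two sides of `s` vertices, and `r` further
vertices on one side of block `0`. -/
abbrev HV (B s r : ℕ) : Type := (Fin (B + 1) × Bool × Fin s) ⊕ Fin r

/-- The block of a vertex. -/
def blk {B s r : ℕ} : HV B s r → Fin (B + 1)
  | Sum.inl x => x.1
  | Sum.inr _ => 0

/-- The side of a vertex. -/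
def side {B s r : ℕ} : HV B s r → Bool
  | Sum.inl x => x.2.1
  | Sum.inr _ => true

/-- The host graph: two vertices are non-adjacent iff they lie on different sides of one block. -/
def host (B s r : ℕ) : SimpleGraph (HV B s r) where
  Adj a b := a ≠ b ∧ ¬ (blk a = blk b ∧ side a ≠ side b)
  symm := ⟨fun _ _ h => ⟨h.1.symm, fun h' => h.2 ⟨h'.1.symm, h'.2.symm⟩⟩⟩
  loopless := ⟨fun _ h => h.1 rfl⟩

/-- The non-neighbours of a vertex. -/
def nonN {B s r : ℕ} (v : HV B s r) : Finset (HV B s r) :=
  univ.filter fun y => blk v = blk y ∧ side v ≠ side y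

section Host

variable {B s r : ℕ}

theorem mem_nonN {v y : HV B s r} : y ∈ nonN v ↔ blk v = blk y ∧ side v ≠ side y := by
  simp [nonN]

theorem card_HV : Fintype.card (HV B s r) = (B + 1) * (2 * s) + r := by
  simp [HV, Fintype.card_sum, Fintype.card_prod]

theorem nonN_ge (v : HV B s r) : s ≤ (nonN v).card := by
  have h1 : (univ.image fun i : Fin s => (Sum.inl (blk v, !side v, i) : HV B s r)) ⊆ nonN v := by
    intro y hy
    rw [mem_image] at hy
    obtain ⟨i, _, rfl⟩ := hy
    rw [mem_nonN]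
    refine ⟨rfl, ?_⟩
    show side v ≠ !side v
    cases side v <;> simp
  have h2 := card_le_card h1
  rw [card_image_of_injective _ (by
    intro i j h
    have h' := Sum.inl_injective h
    simpa using h'), card_univ, Fintype.card_fin] at h2
  exact h2

theorem nonN_le (v : HV B s r) : (nonN v).card ≤ s + r := by
  have h1 : nonN v ⊆ (univ.image fun i : Fin s => (Sum.inl (blk v, !side v, i) : HV B s r)) ∪
      (univ.image fun j : Fin r => (Sum.inr j : HV B s r)) := by
    intro y hy
    rw [mem_nonN] at hy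
    rw [mem_union, mem_image, mem_image]
    rcases y with ⟨b, ε, i⟩ | j
    · left
      refine ⟨i, mem_univ _, ?_⟩
      have h3 : blk v = b := hy.1
      have h4 : side v ≠ ε := hy.2
      have h5 : (!side v) = ε := by
        revert h4
        cases side v <;> cases ε <;> simp
      rw [h3, h5]
    · right
      exact ⟨j, mem_univ _, rfl⟩
  refine (card_le_card h1).trans ((card_union_le _ _).trans ?_)
  have h2 := card_image_le (s := (univ : Finset (Fin s)))
    (f := fun i : Fin s => (Sum.inl (blk v, !side v, i) : HV B s r))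
  have h3 := card_image_le (s := (univ : Finset (Fin r))) (f := fun j : Fin r => (Sum.inr j : HV B s r))
  rw [card_univ, Fintype.card_fin] at h2 h3
  omega

theorem nonN_full (v : HV B s r) (hv : blk v ≠ 0) : (nonN v).card ≤ s := by
  have h1 : nonN v ⊆ (univ.image fun i : Fin s => (Sum.inl (blk v, !side v, i) : HV B s r)) := by
    intro y hy
    rw [mem_nonN] at hy
    rw [mem_image]
    rcases y with ⟨b, ε, i⟩ | j
    · refine ⟨i, mem_univ _, ?_⟩
      have h3 : blk v = b := hy.1
      have h4 : side v ≠ ε := hy.2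
      have h5 : (!side v) = ε := by
        revert h4
        cases side v <;> cases ε <;> simp
      rw [h3, h5]
    · exact absurd hy.1 hv
  refine (card_le_card h1).trans ?_
  have h2 := card_image_le (s := (univ : Finset (Fin s)))
    (f := fun i : Fin s => (Sum.inl (blk v, !side v, i) : HV B s r))
  rw [card_univ, Fintype.card_fin] at h2
  exact h2

theorem blk_card (b : Fin (B + 1)) :
    (univ.filter fun y : HV B s r => blk y = b).card ≤ 2 * s + r := by
  have h1 : (univ.filter fun y : HV B s r => blk y = b) ⊆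
      (univ.image fun x : Bool × Fin s => (Sum.inl (b, x.1, x.2) : HV B s r)) ∪
      (univ.image fun j : Fin r => (Sum.inr j : HV B s r)) := by
    intro y hy
    rw [mem_filter] at hy
    rw [mem_union, mem_image, mem_image]
    rcases y with ⟨b', ε, i⟩ | j
    · left
      refine ⟨(ε, i), mem_univ _, ?_⟩
      have h3 : b' = b := hy.2
      rw [h3]
    · right
      exact ⟨j, mem_univ _, rfl⟩
  refine (card_le_card h1).trans ((card_union_le _ _).trans ?_)
  have h2 := card_image_le (s := (univ : Finset (Bool × Fin s)))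
    (f := fun x : Bool × Fin s => (Sum.inl (b, x.1, x.2) : HV B s r))
  have h3 := card_image_le (s := (univ : Finset (Fin r))) (f := fun j : Fin r => (Sum.inr j : HV B s r))
  rw [card_univ, Fintype.card_prod, Fintype.card_bool, Fintype.card_fin] at h2
  rw [card_univ, Fintype.card_fin] at h3
  omega

theorem host_deg (v : HV B s r) :
    {w | (host B s r).Adj v w}.ncard + (nonN v).card + 1 = (B + 1) * (2 * s) + r := by
  have h1 : {w | (host B s r).Adj v w} = ↑(univ \ insert v (nonN v)) := by
    ext w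
    rw [Set.mem_ofPred_eq, mem_coe, mem_sdiff, mem_insert, mem_nonN, not_or]
    constructor
    · intro h
      exact ⟨mem_univ _, fun h' => h.1 h'.symm, h.2⟩
    · intro h
      exact ⟨fun h' => h.2.1 h'.symm, h.2.2⟩
  have hv : v ∉ nonN v := by
    rw [mem_nonN]
    exact fun h => h.2 rfl
  rw [h1, Set.ncard_coe_finset, card_sdiff_of_subset (subset_univ _), card_insert_of_notMem hv,
    card_univ, card_HV]
  have h2 := card_le_univ (insert v (nonN v))
  rw [card_insert_of_notMem hv, card_HV] at h2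
  omega

open Classical in
theorem host_deg' (v : HV B s r) :
    (univ.filter fun w => (host B s r).Adj v w).card + (nonN v).card + 1 = (B + 1) * (2 * s) + r := by
  rw [← host_deg v]
  congr 2
  rw [Set.ncard_eq_toFinset_card']
  congr 1
  ext w
  simp

variable {c : Sym2 (HV B s r) → ℕ}

theorem find_first (hs : 1 ≤ s) (hB : 1 ≤ B) (hodd : Odd ((B + 1) * (2 * s) + r))
    (hA : (2 * s + r) * r + s + 1 < (B + 1) * (2 * s) + r) (hc : IsProper (host B s r) c) :
    ∃ v, blk v ≠ 0 ∧ ∃ x y, (host B s r).Adj x y ∧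
      ∀ w, (host B s r).Adj v w → c s(v, w) ≠ c s(x, y) := by
  classical
  by_contra hno
  push Not at hno
  let v : HV B s r := Sum.inl (⟨1, by omega⟩, true, ⟨0, by omega⟩)
  have hv : blk v ≠ 0 := by
    intro h
    have := congrArg Fin.val (show (⟨1, by omega⟩ : Fin (B + 1)) = 0 from h)
    simp at this
  let D : Finset (HV B s r) := univ.filter fun w => (host B s r).Adj v w
  have hD : D.card + (nonN v).card + 1 = (B + 1) * (2 * s) + r := host_deg' v
  have hv1 := nonN_ge v
  have hv2 := nonN_full v hv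
  have hcov : D ⊆ (univ.filter fun y : HV B s r => blk y = 0).biUnion fun w =>
      D.filter fun u => ∀ z, (host B s r).Adj w z → c s(w, z) ≠ c s(v, u) := by
    intro u hu
    have hvu : (host B s r).Adj v u := (mem_filter.1 hu).2
    obtain ⟨w, hw⟩ := exists_missing (G := host B s r) (by rw [card_HV]; exact hodd) hc (c s(v, u))
    rw [mem_biUnion]
    refine ⟨w, ?_, mem_filter.2 ⟨hu, hw⟩⟩
    rw [mem_filter]
    refine ⟨mem_univ _, ?_⟩
    by_contra hw0
    obtain ⟨z, hz1, hz2⟩ := hno w hw0 v u hvu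
    exact hw z hz1 hz2
  have hle : ∀ w ∈ (univ.filter fun y : HV B s r => blk y = 0),
      (D.filter fun u => ∀ z, (host B s r).Adj w z → c s(w, z) ≠ c s(v, u)).card ≤ r := by
    intro w _
    have hex : ∀ z, (host B s r).Adj w z → ∃ u, (host B s r).Adj v u ∧ c s(v, u) = c s(w, z) :=
      fun z hz => hno v hv w z hz
    choose! f hf1 hf2 using hex
    have h1 : (univ.filter fun z => (host B s r).Adj w z).card ≤
        (D \ (D.filter fun u => ∀ z, (host B s r).Adj w z → c s(w, z) ≠ c s(v, u))).card := by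
      apply card_le_card_of_injOn f
      · intro z hz
        have hz' : (host B s r).Adj w z := by simpa using hz
        rw [mem_coe, mem_sdiff]
        refine ⟨mem_filter.2 ⟨mem_univ _, hf1 z hz'⟩, ?_⟩
        intro h
        exact (mem_filter.1 h).2 z hz' (hf2 z hz').symm
      · intro z hz z' hz' h
        have h1 : (host B s r).Adj w z := by simpa using hz
        have h2 : (host B s r).Adj w z' := by simpa using hz'
        by_contra hne
        exact hc w z z' h1 h2 hne ((hf2 z h1).symm.trans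
          ((congrArg (fun t => c s(v, t)) h).trans (hf2 z' h2)))
    have h2 := host_deg' w
    have h3 := nonN_le w
    have h4 : (D \ (D.filter fun u => ∀ z, (host B s r).Adj w z → c s(w, z) ≠ c s(v, u))).card =
        D.card - (D.filter fun u => ∀ z, (host B s r).Adj w z → c s(w, z) ≠ c s(v, u)).card :=
      card_sdiff_of_subset (filter_subset _ _)
    have h5 : (D.filter fun u => ∀ z, (host B s r).Adj w z → c s(w, z) ≠ c s(v, u)).card ≤ D.card :=
      card_filter_le _ _
    omega
  have h1 := (card_le_card hcov).trans (card_biUnion_le.trans (sum_le_sum hle))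
  rw [sum_const, smul_eq_mul] at h1
  have h2 : (univ.filter fun y : HV B s r => blk y = 0).card * r ≤ (2 * s + r) * r :=
    Nat.mul_le_mul_right r (blk_card 0)
  omega

theorem find_triple (hs : 1 ≤ s) (hB : 1 ≤ B) (hodd : Odd ((B + 1) * (2 * s) + r))
    (hA : (2 * s + r) * r + s + 1 < (B + 1) * (2 * s) + r)
    (hA' : 5 * (2 * s + r) < (B + 1) * (2 * s) + r) (hc : IsProper (host B s r) c) :
    ∃ v x y, blk v ≠ 0 ∧ (host B s r).Adj x y ∧ blk x ≠ blk v ∧ blk y ≠ blk v ∧
      ∀ w, (host B s r).Adj v w → c s(v, w) ≠ c s(x, y) := by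
  classical
  obtain ⟨v₁, hv₁, x₀, y₀, hxy, hmiss⟩ := find_first hs hB hodd hA hc
  by_cases h : ∃ x y, (host B s r).Adj x y ∧ c s(x, y) = c s(x₀, y₀) ∧ blk x ≠ blk v₁ ∧ blk y ≠ blk v₁
  · obtain ⟨x, y, h1, h2, h3, h4⟩ := h
    exact ⟨v₁, x, y, hv₁, h1, h3, h4, fun w hw => by rw [h2]; exact hmiss w hw⟩
  · push Not at h
    let K : Fin (B + 1) → Finset (HV B s r) := fun b => univ.filter fun y : HV B s r => blk y = b
    have hK : ∀ b, (K b).card ≤ 2 * s + r := fun b => blk_card b
    let C : Finset (HV B s r) := (K (blk v₁)).biUnion fun t =>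
      univ.filter fun w => (host B s r).Adj t w ∧ c s(t, w) = c s(x₀, y₀)
    have hC : C.card ≤ (K (blk v₁)).card := by
      refine (card_biUnion_le).trans ?_
      have h1 : ∀ t ∈ K (blk v₁),
          (univ.filter fun w => (host B s r).Adj t w ∧ c s(t, w) = c s(x₀, y₀)).card ≤ 1 := by
        intro t _
        rw [card_le_one]
        intro a ha b hb
        rw [mem_filter] at ha hb
        by_contra hab
        exact hc t a b ha.2.1 hb.2.1 hab (ha.2.2.trans hb.2.2.symm)
      refine (sum_le_sum h1).trans ?_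
      rw [sum_const, smul_eq_mul, mul_one]
    have h2 : ∃ v, v ∉ ((C ∪ K (blk v₁)) ∪ K 0) ∪ (K (blk x₀) ∪ K (blk y₀)) := by
      by_contra hall
      push Not at hall
      have h3 := card_le_card (show (univ : Finset (HV B s r)) ⊆
        ((C ∪ K (blk v₁)) ∪ K 0) ∪ (K (blk x₀) ∪ K (blk y₀)) from fun z _ => hall z)
      rw [card_univ, card_HV] at h3
      have h4 := card_union_le ((C ∪ K (blk v₁)) ∪ K 0) (K (blk x₀) ∪ K (blk y₀))
      have h5 := card_union_le (C ∪ K (blk v₁)) (K 0)
      have h6 := card_union_le C (K (blk v₁))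
      have h7 := card_union_le (K (blk x₀)) (K (blk y₀))
      have h8 := hK (blk v₁)
      have h9 := hK 0
      have h10 := hK (blk x₀)
      have h11 := hK (blk y₀)
      omega
    obtain ⟨v, hv⟩ := h2
    rw [mem_union, mem_union, mem_union, mem_union, not_or, not_or, not_or, not_or] at hv
    obtain ⟨⟨⟨hvC, hvK⟩, hv0⟩, hvx, hvy⟩ := hv
    simp only [K, mem_filter, mem_univ, true_and] at hvK hv0 hvx hvy
    refine ⟨v, x₀, y₀, hv0, hxy, Ne.symm hvx, Ne.symm hvy, ?_⟩
    intro w hw hcw
    have hwb := h v w hw hcw hvK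
    apply hvC
    rw [mem_biUnion]
    refine ⟨w, ?_, ?_⟩
    · simp only [K, mem_filter, mem_univ, true_and]
      exact hwb
    · rw [mem_filter]
      exact ⟨mem_univ _, hw.symm, by rw [Sym2.eq_swap]; exact hcw⟩

/-- A partial placement of `H₀` (on the indices in `I`). -/
def Good {q : ℕ} (H₀ : SimpleGraph (Fin q)) (v₀ x₀ y₀ : Fin q) (c : Sym2 (HV B s r) → ℕ)
    (v x y : HV B s r) (I : Finset (Fin q)) (g : Fin q → HV B s r) : Prop :=
  g v₀ = v ∧ g x₀ = x ∧ g y₀ = y ∧
  (∀ i ∈ I, ∀ j ∈ I, g i = g j → i = j) ∧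
  (∀ i ∈ I, i ≠ v₀ → H₀.Adj v₀ i → blk (g i) ≠ blk v) ∧
  (∀ i ∈ I, i ≠ v₀ → ¬ H₀.Adj v₀ i → g i ∈ nonN v) ∧
  (∀ i ∈ I, ∀ j ∈ I, i ≠ j → i ≠ v₀ → j ≠ v₀ → (host B s r).Adj (g i) (g j)) ∧
  RB (host B s r) c (I.image g)

theorem place {q : ℕ} (H₀ : SimpleGraph (Fin q)) (v₀ x₀ y₀ : Fin q) (hvx₀ : H₀.Adj v₀ x₀)
    (hvy₀ : H₀.Adj v₀ y₀) (hxy₀ : H₀.Adj x₀ y₀) (hs : q + q ^ 3 < s)
    (hN : q * (2 * s + r) + q + q ^ 3 < (B + 1) * (2 * s) + r)
    (hc : IsProper (host B s r) c) (v x y : HV B s r)
    (hxy : (host B s r).Adj x y) (hbx : blk x ≠ blk v) (hby : blk y ≠ blk v)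
    (hmiss : ∀ w, (host B s r).Adj v w → c s(v, w) ≠ c s(x, y)) (J : Finset (Fin q)) :
    ∃ g, Good H₀ v₀ x₀ y₀ c v x y (J ∪ {v₀, x₀, y₀}) g := by
  classical
  induction J using Finset.induction_on with
  | empty =>
    rw [empty_union]
    let g : Fin q → HV B s r := fun i => if i = v₀ then v else if i = x₀ then x else y
    have gv : g v₀ = v := by simp [g]
    have gx : g x₀ = x := by simp [g, hvx₀.ne']
    have gy : g y₀ = y := by simp [g, hvy₀.ne', hxy₀.ne']
    have hvx : v ≠ x := fun h => hbx (by rw [h])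
    have hvy : v ≠ y := fun h => hby (by rw [h])
    have key : ∀ a b : HV B s r, a ∈ ({x, y} : Finset (HV B s r)) →
        b ∈ ({x, y} : Finset (HV B s r)) → (host B s r).Adj a b → s(a, b) = s(x, y) := by
      intro a b h1 h2 h
      simp only [mem_insert, mem_singleton] at h1 h2
      rcases h1 with h1 | h1 <;> rcases h2 with h2 | h2
      · exact absurd (h1.trans h2.symm) h.ne
      · rw [h1, h2]
      · rw [h1, h2]; exact Sym2.eq_swap
      · exact absurd (h1.trans h2.symm) h.ne
    have hW0 : RB (host B s r) c ({x, y} : Finset (HV B s r)) := by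
      intro a ha b hb a' ha' b' hb' hab hab' hne
      exact absurd ((key a b ha hb hab).trans (key a' b' ha' hb' hab').symm) hne
    have hW1 : RB (host B s r) c (insert v ({x, y} : Finset (HV B s r))) := by
      refine RB_insert hc _ hW0 v ?_
      intro u _ huv a ha b hb hab
      rw [key a b ha hb hab, Sym2.eq_swap]
      exact hmiss u huv.symm
    refine ⟨g, gv, gx, gy, ?_, ?_, ?_, ?_, ?_⟩
    · intro i hi j hj h
      simp only [mem_insert, mem_singleton] at hi hj
      rcases hi with rfl | rfl | rfl <;> rcases hj with rfl | rfl | rfl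
      · rfl
      · rw [gv, gx] at h; exact absurd h hvx
      · rw [gv, gy] at h; exact absurd h hvy
      · rw [gx, gv] at h; exact absurd h.symm hvx
      · rfl
      · rw [gx, gy] at h; exact absurd h hxy.ne
      · rw [gy, gv] at h; exact absurd h.symm hvy
      · rw [gy, gx] at h; exact absurd h.symm hxy.ne
      · rfl
    · intro i hi hiv _
      simp only [mem_insert, mem_singleton] at hi
      rcases hi with rfl | rfl | rfl
      · exact absurd rfl hiv
      · rw [gx]; exact hbx
      · rw [gy]; exact hby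
    · intro i hi hiv hn
      simp only [mem_insert, mem_singleton] at hi
      rcases hi with rfl | rfl | rfl
      · exact absurd rfl hiv
      · exact absurd hvx₀ hn
      · exact absurd hvy₀ hn
    · intro i hi j hj hij hiv hjv
      simp only [mem_insert, mem_singleton] at hi hj
      rcases hi with rfl | rfl | rfl <;> rcases hj with rfl | rfl | rfl
      · exact absurd rfl hij
      · exact absurd rfl hiv
      · exact absurd rfl hiv
      · exact absurd rfl hjv
      · exact absurd rfl hij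
      · rw [gx, gy]; exact hxy
      · exact absurd rfl hjv
      · rw [gy, gx]; exact hxy.symm
      · exact absurd rfl hij
    · rw [image_insert, image_insert, image_singleton, gv, gx, gy]
      exact hW1
  | insert a J _ ih =>
    obtain ⟨g, gv, gx, gy, h1, h2, h3, h4, h5⟩ := ih
    rw [insert_union]
    by_cases haI : a ∈ J ∪ {v₀, x₀, y₀}
    · rw [insert_eq_of_mem haI]
      exact ⟨g, gv, gx, gy, h1, h2, h3, h4, h5⟩
    · set I : Finset (Fin q) := J ∪ {v₀, x₀, y₀} with hI
      have hv₀I : v₀ ∈ I := by simp [hI]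
      have hx₀I : x₀ ∈ I := by simp [hI]
      have hy₀I : y₀ ∈ I := by simp [hI]
      have hav : a ≠ v₀ := fun h => haI (h ▸ hv₀I)
      have hax : a ≠ x₀ := fun h => haI (h ▸ hx₀I)
      have hay : a ≠ y₀ := fun h => haI (h ▸ hy₀I)
      have hIq : I.card ≤ q := by
        have := card_le_univ I
        rwa [Fintype.card_fin] at this
      have hWq : (I.image g).card ≤ q := card_image_le.trans hIq
      have hW3 : (I.image g).card ^ 3 ≤ q ^ 3 := Nat.pow_le_pow_left hWq 3
      -- choose the new vertex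
      have hz : ∃ z, z ∉ I.image g ∧ RB (host B s r) c (insert z (I.image g)) ∧
          (H₀.Adj v₀ a → blk z ≠ blk v) ∧ (¬ H₀.Adj v₀ a → z ∈ nonN v) ∧
          ∀ j ∈ I, j ≠ v₀ → (host B s r).Adj z (g j) := by
        by_cases hadj : H₀.Adj v₀ a
        · let T : Finset (HV B s r) := univ \ ((I.image g).biUnion fun u =>
            univ.filter fun y : HV B s r => blk y = blk u)
          have hT : (I.image g).card + (I.image g).card ^ 3 < T.card := by
            have h6 : ((I.image g).biUnion fun u =>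
                univ.filter fun y : HV B s r => blk y = blk u).card ≤ q * (2 * s + r) := by
              refine (card_biUnion_le).trans ((sum_le_sum fun u _ => blk_card (blk u)).trans ?_)
              rw [sum_const, smul_eq_mul]
              exact Nat.mul_le_mul_right _ hWq
            have h7 : T.card = (B + 1) * (2 * s) + r - ((I.image g).biUnion fun u =>
                univ.filter fun y : HV B s r => blk y = blk u).card := by
              rw [card_sdiff_of_subset (subset_univ _), card_univ, card_HV]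
            omega
          obtain ⟨z, hzT, hzW, hzR⟩ := extend hc (I.image g) h5 T hT
          have hzb : ∀ j ∈ I, blk z ≠ blk (g j) := by
            intro j hj h
            apply (mem_sdiff.1 hzT).2
            rw [mem_biUnion]
            exact ⟨g j, mem_image_of_mem g hj, mem_filter.2 ⟨mem_univ _, h⟩⟩
          refine ⟨z, hzW, hzR, fun _ => ?_, fun h => absurd hadj h, ?_⟩
          · have := hzb v₀ hv₀I
            rwa [gv] at this
          · intro j hj _
            refine ⟨fun h => hzb j hj (by rw [h]), fun h => hzb j hj h.1⟩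
        · have hT : (I.image g).card + (I.image g).card ^ 3 < (nonN v).card := by
            have := nonN_ge v
            omega
          obtain ⟨z, hzT, hzW, hzR⟩ := extend hc (I.image g) h5 (nonN v) hT
          refine ⟨z, hzW, hzR, fun h => absurd h hadj, fun _ => hzT, ?_⟩
          intro j hj hjv
          refine ⟨fun h => hzW (h ▸ mem_image_of_mem g hj), ?_⟩
          rintro ⟨h6, h7⟩
          rw [mem_nonN] at hzT
          by_cases hvj : H₀.Adj v₀ j
          · exact h2 j hj hjv hvj (h6.symm.trans hzT.1.symm)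
          · have h8 := h3 j hj hjv hvj
            rw [mem_nonN] at h8
            have h9 := hzT.2
            have h10 := h8.2
            revert h7 h9 h10
            cases side v <;> cases side z <;> cases side (g j) <;> simp
      obtain ⟨z, hzW, hzR, hz1, hz2, hz3⟩ := hz
      let g' : Fin q → HV B s r := Function.update g a z
      have ga : g' a = z := Function.update_self _ _ _
      have gi : ∀ i, i ≠ a → g' i = g i := fun i hi => Function.update_of_ne hi _ _
      have giI : ∀ i ∈ I, g' i = g i := fun i hi => gi i (fun h => haI (h ▸ hi))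
      refine ⟨g', by rw [gi _ hav.symm, gv], by rw [gi _ hax.symm, gx], by rw [gi _ hay.symm, gy],
        ?_, ?_, ?_, ?_, ?_⟩
      · intro i hi j hj h
        rw [mem_insert] at hi hj
        rcases hi with rfl | hi <;> rcases hj with rfl | hj
        · rfl
        · rw [ga, giI j hj] at h
          exact absurd (h ▸ mem_image_of_mem g hj) hzW
        · rw [ga, giI i hi] at h
          exact absurd (h ▸ mem_image_of_mem g hi) hzW
        · rw [giI i hi, giI j hj] at h
          exact h1 i hi j hj h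
      · intro i hi hiv hadj
        rw [mem_insert] at hi
        rcases hi with rfl | hi
        · rw [ga]; exact hz1 hadj
        · rw [giI i hi]; exact h2 i hi hiv hadj
      · intro i hi hiv hadj
        rw [mem_insert] at hi
        rcases hi with rfl | hi
        · rw [ga]; exact hz2 hadj
        · rw [giI i hi]; exact h3 i hi hiv hadj
      · intro i hi j hj hij hiv hjv
        rw [mem_insert] at hi hj
        rcases hi with rfl | hi <;> rcases hj with rfl | hj
        · exact absurd rfl hij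
        · rw [ga, giI j hj]; exact hz3 j hj hjv
        · rw [ga, giI i hi]; exact (hz3 i hi hiv).symm
        · rw [giI i hi, giI j hj]; exact h4 i hi j hj hij hiv hjv
      · have h6 : I.image g' = I.image g := image_congr (fun i hi => giI i hi)
        rw [image_insert, ga, h6]
        exact hzR

theorem host_rainbow {q : ℕ} (H₀ : SimpleGraph (Fin q)) (v₀ x₀ y₀ : Fin q) (hvx₀ : H₀.Adj v₀ x₀)
    (hvy₀ : H₀.Adj v₀ y₀) (hxy₀ : H₀.Adj x₀ y₀) (k : ℕ) (hs : q + q ^ 3 < s) (hB : 1 ≤ B)
    (hodd : Odd ((B + 1) * (2 * s) + r))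
    (hA : (2 * s + r) * r + s + 1 < (B + 1) * (2 * s) + r)
    (hA' : 5 * (2 * s + r) < (B + 1) * (2 * s) + r)
    (hN : q * (2 * s + r) + q + q ^ 3 < (B + 1) * (2 * s) + r)
    (hk : H₀.edgeSet.ncard + k + s = (B + 1) * (2 * s) + r)
    (hc : IsProper (host B s r) c) : HasRainbow (pend H₀ v₀ k) (host B s r) c := by
  classical
  obtain ⟨v, x, y, hv0, hxy, hbx, hby, hmiss⟩ := find_triple (by omega) hB hodd hA hA' hc
  obtain ⟨g, gv, gx, gy, h1, h2, h3, h4, h5⟩ :=
    place H₀ v₀ x₀ y₀ hvx₀ hvy₀ hxy₀ hs hN hc v x y hxy hbx hby hmiss univ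
  have hm : ∀ i : Fin q, i ∈ (univ ∪ {v₀, x₀, y₀} : Finset (Fin q)) := fun i => by simp
  have hdeg := host_deg v
  have hfull := nonN_full v hv0
  have hadj : ∀ i, i ≠ v₀ → H₀.Adj v₀ i → (host B s r).Adj v (g i) := by
    intro i hi hvi
    have h6 := h2 i (hm i) hi hvi
    exact ⟨fun h => h6 (by rw [← h]), fun h => h6 h.1.symm⟩
  refine add_leaves H₀ v₀ x₀ y₀ hxy₀ k hc g (fun i j h => h1 i (hm i) j (hm j) h) ?_ ?_ ?_ ?_ ?_
  · intro i j hij
    by_cases hi : i = v₀
    · subst hi
      rw [gv]
      exact hadj j hij.ne' hij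
    · by_cases hj : j = v₀
      · subst hj
        rw [gv]
        exact (hadj i hij.ne hij.symm).symm
      · exact h4 i (hm i) j (hm j) hij.ne hi hj
  · intro i hi hvi
    rw [gv]
    have h6 := h3 i (hm i) hi hvi
    rw [mem_nonN] at h6
    exact fun h => h.2 h6
  · intro i j i' j' hij hij' hne
    have hA1 : ∀ i j, H₀.Adj i j → (host B s r).Adj (g i) (g j) := by
      intro i j hij
      by_cases hi : i = v₀
      · subst hi
        rw [gv]
        exact hadj j hij.ne' hij
      · by_cases hj : j = v₀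
        · subst hj
          rw [gv]
          exact (hadj i hij.ne hij.symm).symm
        · exact h4 i (hm i) j (hm j) hij.ne hi hj
    have hmem : ∀ i, g i ∈ (univ ∪ {v₀, x₀, y₀} : Finset (Fin q)).image g :=
      fun i => mem_image_of_mem g (hm i)
    refine h5 _ (hmem i) _ (hmem j) _ (hmem i') _ (hmem j') (hA1 i j hij) (hA1 i' j' hij') ?_
    intro h
    apply hne
    have hg : Function.Injective g := fun i j h => h1 i (hm i) j (hm j) h
    have h6 : Sym2.map g s(i, j) = Sym2.map g s(i', j') := h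
    exact Sym2.map.injective hg h6
  · intro w hw
    rw [gv] at hw ⊢
    rw [gx, gy]
    exact hmiss w hw
  · rw [gv]
    omega

end Host

/-- Let `H₀` be a graph on `q` vertices, `v₀` a vertex of `H₀` on a triangle `v₀ x₀ y₀`,
`k ≥ 100 (q³ + q + 2)²`, and let `H` be `H₀` with `k` pendant edges attached at `v₀`. Some finite graph
of maximum degree exactly `e(H) - 1` has a rainbow copy of `H` in each proper edge colouring; so
`ARd H ≤ e(H) - 1`. -/
theorem result (q : ℕ) (H₀ : SimpleGraph (Fin q)) (v₀ x₀ y₀ : Fin q) (hvx₀ : H₀.Adj v₀ x₀)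
    (hvy₀ : H₀.Adj v₀ y₀) (hxy₀ : H₀.Adj x₀ y₀) (k : ℕ) (hk : 100 * (q ^ 3 + q + 2) ^ 2 ≤ k) :
    (∃ (V : Type) (_ : Fintype V) (G : SimpleGraph V),
      (∀ x, {y | G.Adj x y}.ncard ≤ (pend H₀ v₀ k).edgeSet.ncard - 1) ∧
      (∃ x, {y | G.Adj x y}.ncard = (pend H₀ v₀ k).edgeSet.ncard - 1) ∧
      ∀ c, IsProper G c → HasRainbow (pend H₀ v₀ k) G c) ∧
    ARd (pend H₀ v₀ k) ≤ (pend H₀ v₀ k).edgeSet.ncard - 1 := by
  have main : ∃ (V : Type) (_ : Fintype V) (G : SimpleGraph V),
      (∀ x, {y | G.Adj x y}.ncard ≤ (pend H₀ v₀ k).edgeSet.ncard - 1) ∧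
      (∃ x, {y | G.Adj x y}.ncard = (pend H₀ v₀ k).edgeSet.ncard - 1) ∧
      ∀ c, IsProper G c → HasRainbow (pend H₀ v₀ k) G c := by
    rw [pend_edges]
    obtain ⟨s, hs1, hs2, hs3⟩ : ∃ s, q ^ 3 + q + 1 ≤ s ∧ s ≤ q ^ 3 + q + 2 ∧
        (H₀.edgeSet.ncard + k + s) % 2 = 1 := by
      by_cases h : (H₀.edgeSet.ncard + k + (q ^ 3 + q + 1)) % 2 = 1
      · exact ⟨q ^ 3 + q + 1, le_rfl, by omega, h⟩
      · exact ⟨q ^ 3 + q + 2, by omega, le_rfl, by omega⟩
    have hss : s * s ≤ (q ^ 3 + q + 2) ^ 2 := by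
      rw [pow_two]
      exact Nat.mul_le_mul hs2 hs2
    have h1s : s ≤ s * s := Nat.le_mul_self s
    have hqs : q ≤ s := by omega
    set N : ℕ := H₀.edgeSet.ncard + k + s with hNdef
    have hN1 : 100 * (s * s) ≤ N := by omega
    have hr : N % (2 * s) < 2 * s := Nat.mod_lt _ (by omega)
    have hdiv : 2 ≤ N / (2 * s) := by
      rw [Nat.le_div_iff_mul_le (by omega)]
      omega
    have hdm := Nat.div_add_mod N (2 * s)
    set r : ℕ := N % (2 * s) with hrdef
    obtain ⟨B, hB⟩ : ∃ B, N / (2 * s) = B + 1 := ⟨N / (2 * s) - 1, by omega⟩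
    rw [hB] at hdm hdiv
    have hNN : (B + 1) * (2 * s) + r = N := by
      rw [← hdm]
      ring
    have hm1 : (2 * s + r) * r ≤ 8 * (s * s) := by
      calc (2 * s + r) * r ≤ (2 * s + 2 * s) * (2 * s) :=
            Nat.mul_le_mul (by omega) (by omega)
        _ = 8 * (s * s) := by ring
    have hm2 : q * (2 * s + r) ≤ 4 * (s * s) := by
      calc q * (2 * s + r) ≤ s * (2 * s + 2 * s) := Nat.mul_le_mul hqs (by omega)
        _ = 4 * (s * s) := by ring
    have hodd : Odd ((B + 1) * (2 * s) + r) := by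
      rw [hNN]
      exact Nat.odd_iff.2 hs3
    refine ⟨HV B s r, inferInstance, host B s r, ?_, ?_, ?_⟩
    · intro x
      have h1 := host_deg x
      have h2 := nonN_ge x
      omega
    · refine ⟨Sum.inl (⟨1, by omega⟩, true, ⟨0, by omega⟩), ?_⟩
      have hv : blk (Sum.inl (⟨1, by omega⟩, true, ⟨0, by omega⟩) : HV B s r) ≠ 0 := by
        intro h
        have := congrArg Fin.val (show (⟨1, by omega⟩ : Fin (B + 1)) = 0 from h)
        simp at this
      have h1 := host_deg (Sum.inl (⟨1, by omega⟩, true, ⟨0, by omega⟩) : HV B s r)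
      have h2 := nonN_ge (Sum.inl (⟨1, by omega⟩, true, ⟨0, by omega⟩) : HV B s r)
      have h3 := nonN_full (Sum.inl (⟨1, by omega⟩, true, ⟨0, by omega⟩) : HV B s r) hv
      omega
    · intro c hc
      exact host_rainbow H₀ v₀ x₀ y₀ hvx₀ hvy₀ hxy₀ k (by omega) (by omega) hodd (by omega) (by omega)
        (by omega) (by omega) hc
  exact ⟨main, Nat.sInf_le main⟩

end Pool.Agent.Results.MP_1d1f41_co.ManyPendants
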