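import Mathlib

/-!
# Degree anti-Ramsey numbers: adding a star component

The degree anti-Ramsey number of the disjoint union of an arbitrary graph `H` with at least one edge
and a star.
-/

set_option autoImplicit false

namespace Pool.Agent.Results.MP_1d1f41_co.StarComponents

open SimpleGraph

/-- `c` is a proper edge colouring of `G`, the colours being natural numbers: the edge between the
adjacent vertices `u` and `v` has the colour `c u v = c v u`, and edges which share a vertex have
different colours. -/
def IsProper {V : Type} (G : SimpleGraph V) (c : V → V → ℕ) : Prop :=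
  (∀ u v, G.Adj u v → c u v = c v u) ∧
    ∀ u v w, G.Adj u v → G.Adj u w → v ≠ w → c u v ≠ c u w

/-- `G` with the edge colouring `c` contains a rainbow copy of `H`: an injective map of vertices
which maps edges to edges, different edges to edges of different colours. -/
def HasRainbow {V W : Type} (G : SimpleGraph V) (c : V → V → ℕ) (H : SimpleGraph W) : Prop :=
  ∃ f : W → V, Function.Injective f ∧ (∀ a b, H.Adj a b → G.Adj (f a) (f b)) ∧
    ∀ a b a' b', H.Adj a b → H.Adj a' b' → s(a, b) ≠ s(a', b') →
      c (f a) (f b) ≠ c (f a') (f b')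

/-- Some finite graph of maximum degree at most `r` contains a rainbow copy of `H` in each of its
proper edge colourings. -/
def Works {W : Type} (H : SimpleGraph W) (r : ℕ) : Prop :=
  ∃ (V : Type) (_ : Finite V) (G : SimpleGraph V), (∀ v, (G.neighborSet v).ncard ≤ r) ∧
    ∀ c, IsProper G c → HasRainbow G c H

/-- The degree anti-Ramsey number of `H`. -/
noncomputable def arD {W : Type} (H : SimpleGraph W) : ℕ := sInf {r | Works H r}

lemma even_card {V : Type} [Finite V] (f : V → V) (h1 : ∀ v, f (f v) = v) (h2 : ∀ v, f v ≠ v) :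
    Even (Nat.card V) := by
  classical
  have := Fintype.ofFinite V
  have h : ∑ _v : V, (1 : ZMod 2) = 0 := by
    refine Finset.sum_involution (fun v _ => f v) ?_ ?_ ?_ ?_
    · intro a _; decide
    · intro a _ _; exact h2 a
    · intro a _; exact Finset.mem_univ _
    · intro a _; exact h1 a
  rw [Finset.sum_const, Finset.card_univ, nsmul_eq_mul, mul_one] at h
  rw [Nat.card_eq_fintype_card]
  exact (ZMod.natCast_eq_zero_iff_even).1 h

/-- A graph of maximum degree at most `r` such that every colour class of every proper edge colouring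
misses a vertex of degree at least `r`. -/
def Good (r : ℕ) : Prop :=
  ∃ (V : Type) (_ : Finite V) (G : SimpleGraph V), (∀ v, (G.neighborSet v).ncard ≤ r) ∧
    ∀ c, IsProper G c → ∀ s : ℕ, ∃ v, r ≤ (G.neighborSet v).ncard ∧ ∀ w, G.Adj v w → c v w ≠ s

lemma good_even {r : ℕ} (hr : Even r) : Good r := by
  classical
  refine ⟨Fin (r + 1), inferInstance, ⊤, ?_, ?_⟩
  · intro v
    have : (⊤ : SimpleGraph (Fin (r + 1))).neighborSet v = {v}ᶜ := by
      ext w; simp [eq_comm]
    rw [this, Set.ncard_compl]
    simp
  · intro c hc s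
    by_contra hcon
    push Not at hcon
    have hd : ∀ v : Fin (r + 1), r ≤ ((⊤ : SimpleGraph (Fin (r + 1))).neighborSet v).ncard := by
      intro v
      have : (⊤ : SimpleGraph (Fin (r + 1))).neighborSet v = {v}ᶜ := by
        ext w; simp [eq_comm]
      rw [this, Set.ncard_compl]
      simp
    choose f hf1 hf2 using fun v => hcon v (hd v)
    have h1 : ∀ v, f (f v) = v := by
      intro v
      by_contra hne
      refine hc.2 (f v) v (f (f v)) (hf1 v).symm (hf1 (f v)) (Ne.symm hne) ?_
      rw [hf2 (f v), ← hc.1 v (f v) (hf1 v), hf2 v]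
    have h2 : ∀ v, f v ≠ v := fun v => (hf1 v).ne'
    have := even_card f h1 h2
    rw [Nat.card_eq_fintype_card, Fintype.card_fin] at this
    exact absurd hr (by simpa [Nat.even_add_one] using this)

/-- One of the two components of `oddG` minus the vertex `none`: a complete graph with `2q + 3`
vertices minus a path with two edges and `q` further independent edges. -/
def nonadj {q : ℕ} : Option (Fin (q + 1) × Bool) → Option (Fin (q + 1) × Bool) → Prop
  | none, none => True
  | none, some p => p = (0, false)
  | some p, none => p = (0, false)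
  | some p, some p' => p.1 = p'.1

/-- A graph of maximum degree `2q + 1`, for `q ≥ 1`, in which no matching covers all vertices of
degree `2q + 1`. -/
def oddG (q : ℕ) : SimpleGraph (Option (Bool × Option (Fin (q + 1) × Bool))) where
  Adj
    | none, none => False
    | none, some (_, y) => y = some (0, false)
    | some (_, y), none => y = some (0, false)
    | some (k, x), some (k', y) => k = k' ∧ ¬ nonadj x y
  symm := ⟨by
    rintro (_ | ⟨k, _ | x⟩) (_ | ⟨k', _ | y⟩) h <;> simp_all [nonadj, eq_comm]⟩
  loopless := ⟨by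
    rintro (_ | ⟨k, _ | x⟩) h <;> simp_all [nonadj]⟩

lemma good_odd {q : ℕ} (hq : 1 ≤ q) : Good (2 * q + 1) := by
  classical
  have hdeg : ∀ (k : Bool) (x : Option (Fin (q + 1) × Bool)),
      ((oddG q).neighborSet (some (k, x))).ncard = 2 * q + 1 := by
    intro k x
    have hinj : Function.Injective (fun p : Fin (q + 1) × Bool => (some (k, some p) :
        Option (Bool × Option (Fin (q + 1) × Bool)))) := by
      intro p p' h
      simpa using h
    have hrow : ∀ i : Fin (q + 1), {p : Fin (q + 1) × Bool | i ≠ p.1}.ncard = 2 * q := by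
      intro i
      have : {p : Fin (q + 1) × Bool | i ≠ p.1} = ({i}ᶜ : Set (Fin (q + 1))) ×ˢ Set.univ := by
        ext p
        simp only [Set.mem_ofPred_eq, Set.mem_prod, Set.mem_compl_iff, Set.mem_singleton_iff,
          Set.mem_univ, and_true, ne_eq]
        exact ⟨fun h e => h e.symm, fun h e => h e.symm⟩
      rw [this, Set.ncard_prod, Set.ncard_compl]
      simp [mul_comm]
    rcases x with _ | ⟨i, b⟩
    · have : (oddG q).neighborSet (some (k, none)) =
          (fun p : Fin (q + 1) × Bool => (some (k, some p) :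
            Option (Bool × Option (Fin (q + 1) × Bool)))) '' {((0 : Fin (q + 1)), false)}ᶜ := by
        ext y
        rcases y with _ | ⟨k', _ | y⟩
        · simp [oddG, SimpleGraph.mem_neighborSet]
        · simp [oddG, nonadj, SimpleGraph.mem_neighborSet]
        · constructor
          · rintro ⟨h1, h2⟩
            exact ⟨y, h2, by rw [h1]⟩
          · rintro ⟨p, h1, h2⟩
            have h3 : k = k' ∧ p = y := by simpa using h2
            exact ⟨h3.1, by rw [← h3.2]; exact h1⟩
      rw [this, Set.ncard_image_of_injective _ hinj, Set.ncard_compl]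
      simp
      omega
    · have h1 : (oddG q).neighborSet (some (k, some (i, b))) =
          insert (if (i, b) = (0, false) then none else some (k, none))
          ((fun p : Fin (q + 1) × Bool => (some (k, some p) :
            Option (Bool × Option (Fin (q + 1) × Bool)))) '' {p | i ≠ p.1}) := by
        ext y
        rcases y with _ | ⟨k', _ | y⟩
        · by_cases hib : (i, b) = (0, false) <;>
            simp [oddG, SimpleGraph.mem_neighborSet, hib]
        · by_cases hib : (i, b) = (0, false) <;>
            simp [oddG, nonadj, SimpleGraph.mem_neighborSet, hib, eq_comm]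
        · constructor
          · rintro ⟨h1, h2⟩
            exact Or.inr ⟨y, h2, by rw [h1]⟩
          · rintro (h1 | ⟨p, h1, h2⟩)
            · exfalso
              split_ifs at h1
              simp at h1
            · have h3 : k = k' ∧ p = y := by simpa using h2
              exact ⟨h3.1, by rw [← h3.2]; exact h1⟩
      rw [h1, Set.ncard_insert_of_notMem, Set.ncard_image_of_injective _ hinj, hrow]
      by_cases hib : (i, b) = (0, false) <;> simp [hib]
  refine ⟨_, inferInstance, oddG q, ?_, ?_⟩
  · rintro (_ | ⟨k, x⟩)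
    · have : (oddG q).neighborSet none ⊆
          (fun k : Bool => (some (k, some (0, false)) :
            Option (Bool × Option (Fin (q + 1) × Bool)))) '' Set.univ := by
        intro y hy
        rcases y with _ | ⟨k', y⟩
        · exact absurd hy (fun h => h)
        · have : y = some (0, false) := hy
          exact ⟨k', Set.mem_univ _, by rw [this]⟩
      refine (Set.ncard_le_ncard this).trans ((Set.ncard_image_le).trans ?_)
      rw [Set.ncard_univ, Nat.card_eq_fintype_card, Fintype.card_bool]
      omega
    · exact (hdeg k x).le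
  · intro c hc s
    by_contra hcon
    push Not at hcon
    choose f hf1 hf2 using fun v : Bool × Option (Fin (q + 1) × Bool) =>
      hcon (some v) (hdeg v.1 v.2).ge
    have key : ∀ k : Bool, (oddG q).Adj (some (k, some (0, false))) none ∧
        c (some (k, some (0, false))) none = s := by
      intro k
      by_contra hk
      have h0 : ∀ x, ∃ y, f (k, x) = some (k, y) := by
        intro x
        have h1 := hf1 (k, x)
        have h2 := hf2 (k, x)
        rcases hfx : f (k, x) with _ | ⟨k', y⟩
        · rw [hfx] at h1 h2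
          have hx : x = some (0, false) := h1
          rw [hx] at h1 h2
          exact absurd ⟨h1, h2⟩ hk
        · rw [hfx] at h1
          have : k = k' := h1.1
          exact ⟨y, by rw [this]⟩
      choose g hg using h0
      have h1 : ∀ x, g (g x) = x := by
        intro x
        by_contra hne
        have a1 := hf1 (k, x)
        have a2 := hf1 (k, g x)
        have b1 := hf2 (k, x)
        have b2 := hf2 (k, g x)
        rw [hg] at a1 a2 b1 b2
        refine hc.2 (some (k, g x)) (some (k, x)) (some (k, g (g x))) a1.symm a2 ?_ ?_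
        · simpa using Ne.symm hne
        · rw [b2, ← hc.1 _ _ a1, b1]
      have h2 : ∀ x, g x ≠ x := by
        intro x hx
        have a1 := hf1 (k, x)
        rw [hg, hx] at a1
        exact (oddG q).irrefl a1
      have := even_card g h1 h2
      rw [Nat.card_eq_fintype_card] at this
      simp only [Fintype.card_option, Fintype.card_prod, Fintype.card_fin, Fintype.card_bool] at this
      rw [Nat.even_iff] at this
      omega
    have h1 := key true
    have h2 := key false
    refine hc.2 none (some (true, some (0, false))) (some (false, some (0, false)))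
      h1.1.symm h2.1.symm (by simp) ?_
    rw [← hc.1 _ _ h1.1, ← hc.1 _ _ h2.1, h1.2, h2.2]

lemma good {r : ℕ} (hr : 2 ≤ r) : Good r := by
  rcases Nat.even_or_odd r with h | ⟨q, hq⟩
  · exact good_even h
  · rw [hq]
    exact good_odd (by omega)

lemma works_mono {W : Type} {H : SimpleGraph W} {r r' : ℕ} (hr : r ≤ r') (h : Works H r) :
    Works H r' := by
  obtain ⟨V, hV, G, h1, h2⟩ := h
  exact ⟨V, hV, G, fun v => (h1 v).trans hr, h2⟩

lemma works_of_sum {W U : Type} {H : SimpleGraph W} {K : SimpleGraph U} {r : ℕ}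
    (h : Works (H ⊕g K) r) : Works H r := by
  obtain ⟨V, hV, G, h1, h2⟩ := h
  refine ⟨V, hV, G, h1, fun c hc => ?_⟩
  obtain ⟨f, f1, f2, f3⟩ := h2 c hc
  refine ⟨f ∘ Sum.inl, f1.comp Sum.inl_injective, fun a b hab => f2 _ _ (by simpa using hab), ?_⟩
  intro a b a' b' hab hab' hne
  refine f3 _ _ _ _ (by simpa using hab) (by simpa using hab') ?_
  intro he
  apply hne
  simpa using he

/-- Disjoint copies of `G2`, one for each element of `U`. -/
def copies (U : Type) {V2 : Type} (G2 : SimpleGraph V2) : SimpleGraph (U × V2) where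
  Adj p q := p.1 = q.1 ∧ G2.Adj p.2 q.2
  symm := ⟨fun _ _ h => ⟨h.1.symm, h.2.symm⟩⟩
  loopless := ⟨fun _ h => G2.irrefl h.2⟩

/-- The choice of the stars, one centre after the other. -/
lemma pick {U V2 : Type} [Finite U] [Finite V2] (G2 : SimpleGraph V2) {r : ℕ} (s0 : ℕ)
    (c2 : U → V2 → V2 → ℕ) (p2 : ∀ u, IsProper G2 (c2 u))
    (w2 : ∀ u, ∃ v, r ≤ (G2.neighborSet v).ncard ∧ ∀ w, G2.Adj v w → c2 u v w ≠ s0)
    (S : Set ℕ) (hSfin : S.Finite) (hs0 : s0 ∈ S) (ctr : U → U) (A : Finset U) :
    S.ncard + {x | ctr x ∈ A ∧ ctr x ≠ x}.ncard ≤ r + 1 →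
    ∃ v g : U → V2, (∀ x, ctr x ∈ A → ctr x ≠ x →
        G2.Adj (v (ctr x)) (g x) ∧ c2 (ctr x) (v (ctr x)) (g x) ∉ S) ∧
      ∀ x y, ctr x ∈ A → ctr x ≠ x → ctr y ∈ A → ctr y ≠ y → x ≠ y →
        c2 (ctr x) (v (ctr x)) (g x) ≠ c2 (ctr y) (v (ctr y)) (g y) := by
  classical
  induction A using Finset.induction_on with
  | empty =>
    intro _
    by_cases hU : Nonempty U
    · obtain ⟨u⟩ := hU
      obtain ⟨v, -⟩ := w2 u
      exact ⟨fun _ => v, fun _ => v, fun x hx => absurd hx (Finset.notMem_empty _),
        fun x y hx => absurd hx (Finset.notMem_empty _)⟩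
    · rw [not_nonempty_iff] at hU
      exact ⟨fun x => hU.elim x, fun x => hU.elim x, fun x => hU.elim x, fun x => hU.elim x⟩
  | insert z A hz ih =>
    intro hcard
    -- the leaves over `A` and over `z`
    set LA : Set U := {x | ctr x ∈ A ∧ ctr x ≠ x} with hLA
    set Lz : Set U := {x | ctr x = z ∧ ctr x ≠ x} with hLz
    have hsplit : {x | ctr x ∈ insert z A ∧ ctr x ≠ x}.ncard = LA.ncard + Lz.ncard := by
      have h1 : {x | ctr x ∈ insert z A ∧ ctr x ≠ x} = LA ∪ Lz := by
        ext x
        simp only [hLA, hLz, Set.mem_ofPred_eq, Set.mem_union, Finset.mem_insert]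
        tauto
      rw [h1, Set.ncard_union_eq _ (Set.toFinite _) (Set.toFinite _)]
      rw [Set.disjoint_left]
      rintro x ⟨h2, -⟩ ⟨h3, -⟩
      exact hz (h3 ▸ h2)
    rw [hsplit] at hcard
    obtain ⟨v, g, hvg, hcol⟩ := ih (by omega)
    set S' : Set ℕ := S ∪ (fun x => c2 (ctr x) (v (ctr x)) (g x)) '' LA with hS'
    have hS'fin : S'.Finite := hSfin.union ((Set.toFinite _).image _)
    have hS'card : S'.ncard ≤ S.ncard + LA.ncard :=
      (Set.ncard_union_le _ _).trans (Nat.add_le_add_left (Set.ncard_image_le (Set.toFinite _)) _)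
    obtain ⟨v0, hv1, hv2⟩ := w2 z
    set N := G2.neighborSet v0 with hN
    set T : Set V2 := {w | w ∈ N ∧ c2 z v0 w ∉ S'} with hT
    have hinj : Set.InjOn (c2 z v0) N := by
      intro w hw w' hw' he
      by_contra hne
      exact (p2 z).2 v0 w w' hw hw' hne he
    have hbad : (N \ T).ncard + 1 ≤ S'.ncard := by
      have h1 : c2 z v0 '' (N \ T) ⊆ S' \ {s0} := by
        rintro _ ⟨w, ⟨hw1, hw2⟩, rfl⟩
        refine ⟨?_, ?_⟩
        · by_contra hcon
          exact hw2 ⟨hw1, hcon⟩
        · simpa using hv2 w hw1
      have h2 : (c2 z v0 '' (N \ T)).ncard = (N \ T).ncard :=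
        Set.InjOn.ncard_image (hinj.mono Set.sdiff_subset)
      have h3 := Set.ncard_le_ncard h1 (hS'fin.subset Set.sdiff_subset)
      have hs0' : s0 ∈ S' := Or.inl hs0
      have h4 := Set.ncard_sdiff_singleton_add_one hs0' hS'fin
      omega
    have hTN : T ⊆ N := fun w hw => hw.1
    have hTcard : Lz.ncard ≤ T.ncard := by
      have h1 := Set.ncard_sdiff_add_ncard_of_subset hTN (Set.toFinite _)
      omega
    obtain ⟨e⟩ : Nonempty (Lz ↪ T) := by
      have := Fintype.ofFinite T
      have := Fintype.ofFinite Lz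
      apply Function.Embedding.nonempty_of_card_le
      rw [← Nat.card_eq_fintype_card, ← Nat.card_eq_fintype_card]
      exact hTcard
    have hzA : ∀ x, ctr x ∈ A → ctr x ≠ z := fun x hx h => hz (h ▸ hx)
    refine ⟨fun u => if u = z then v0 else v u,
      fun x => if h : x ∈ Lz then (e ⟨x, h⟩ : V2) else g x, ?_, ?_⟩
    · intro x hx hne
      rcases Finset.mem_insert.1 hx with h | h
      · have hxz : x ∈ Lz := ⟨h, hne⟩
        have h3 := (e ⟨x, hxz⟩).2
        simp only [hxz, dif_pos]
        rw [h]
        simp only [if_true]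
        exact ⟨h3.1, fun h4 => h3.2 (Or.inl h4)⟩
      · have hxz : x ∉ Lz := fun h4 => hzA x h h4.1
        simp only [hxz, dif_neg, not_false_iff, if_neg (hzA x h)]
        exact hvg x h hne
    · intro x y hx hxne hy hyne hxy
      rcases Finset.mem_insert.1 hx with h | h <;> rcases Finset.mem_insert.1 hy with h' | h'
      · have hxz : x ∈ Lz := ⟨h, hxne⟩
        have hyz : y ∈ Lz := ⟨h', hyne⟩
        simp only [hxz, hyz, dif_pos]
        rw [h, h']
        simp only [if_true]
        intro he
        have h5 := hinj (e ⟨x, hxz⟩).2.1 (e ⟨y, hyz⟩).2.1 he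
        have h6 := e.injective (Subtype.ext h5)
        exact hxy (congrArg Subtype.val h6)
      · have hxz : x ∈ Lz := ⟨h, hxne⟩
        have hyz : y ∉ Lz := fun h4 => hzA y h' h4.1
        simp only [hxz, hyz, dif_pos, dif_neg, not_false_iff, if_neg (hzA y h')]
        rw [h]
        simp only [if_true]
        intro he
        exact (e ⟨x, hxz⟩).2.2 (Or.inr ⟨y, ⟨h', hyne⟩, he.symm⟩)
      · have hxz : x ∉ Lz := fun h4 => hzA x h h4.1
        have hyz : y ∈ Lz := ⟨h', hyne⟩
        simp only [hxz, hyz, dif_pos, dif_neg, not_false_iff, if_neg (hzA x h)]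
        rw [h']
        simp only [if_true]
        intro he
        exact (e ⟨y, hyz⟩).2.2 (Or.inr ⟨x, ⟨h, hxne⟩, he⟩)
      · have hxz : x ∉ Lz := fun h4 => hzA x h h4.1
        have hyz : y ∉ Lz := fun h4 => hzA y h' h4.1
        simp only [hxz, hyz, dif_neg, not_false_iff, if_neg (hzA x h), if_neg (hzA y h')]
        exact hcol x y h hxne h' hyne hxy

/-- `F` is a disjoint union of stars (isolated vertices allowed) with the map `ctr` from a vertex to
the centre of its star. -/
def IsStarForest {U : Type} (F : SimpleGraph U) (ctr : U → U) : Prop :=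
  (∀ x, ctr (ctr x) = ctr x) ∧ ∀ x y, F.Adj x y ↔ x ≠ y ∧ (ctr x = y ∨ ctr y = x)

lemma leaves_le {U : Type} [Finite U] {F : SimpleGraph U} {ctr : U → U} (hF : IsStarForest F ctr) :
    {x | ctr x ≠ x}.ncard ≤ F.edgeSet.ncard := by
  refine Set.ncard_le_ncard_of_injOn (fun x => s(x, ctr x)) ?_ ?_ (Set.toFinite _)
  · intro x hx
    have hx' : ctr x ≠ x := hx
    exact (hF.2 x (ctr x)).2 ⟨hx'.symm, Or.inl rfl⟩
  · intro x hx y hy he
    rcases Sym2.eq_iff.1 he with ⟨h1, -⟩ | ⟨h1, h2⟩
    · exact h1
    · exfalso
      have hx' : ctr x ≠ x := hx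
      apply hx'
      rw [h1, hF.1]

lemma works_stars {W U : Type} [Finite W] [Finite U] {H : SimpleGraph W} (hH : H ≠ ⊥)
    {F : SimpleGraph U} {ctr : U → U} (hF : IsStarForest F ctr) {r : ℕ}
    (hgood : Good r) (h : H.edgeSet.ncard + F.edgeSet.ncard ≤ r + 1) (hw : Works H r) :
    Works (H ⊕g F) r := by
  classical
  have := Fintype.ofFinite U
  obtain ⟨V1, _, G1, d1, w1⟩ := hw
  obtain ⟨V2, _, G2, d2, w2⟩ := hgood
  refine ⟨V1 ⊕ (U × V2), inferInstance, G1 ⊕g copies U G2, ?_, ?_⟩
  · rintro (v | ⟨u, v⟩)
    · have : (G1 ⊕g copies U G2).neighborSet (Sum.inl v) ⊆ Sum.inl '' (G1.neighborSet v) := by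
        rintro (w | w) hw
        · exact ⟨w, by simpa using hw, rfl⟩
        · simp at hw
      exact (Set.ncard_le_ncard this).trans ((Set.ncard_image_le).trans (d1 v))
    · have : (G1 ⊕g copies U G2).neighborSet (Sum.inr (u, v)) ⊆
          (fun w => Sum.inr (u, w)) '' (G2.neighborSet v) := by
        rintro (w | ⟨u', w⟩) hw
        · simp at hw
        · have h1 : (copies U G2).Adj (u, v) (u', w) := by simpa using hw
          exact ⟨w, h1.2, by rw [show u = u' from h1.1]⟩
      exact (Set.ncard_le_ncard this).trans ((Set.ncard_image_le).trans (d2 v))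
  · intro c hc
    set c1 : V1 → V1 → ℕ := fun u v => c (Sum.inl u) (Sum.inl v) with hc1
    set c2 : U → V2 → V2 → ℕ := fun z u v => c (Sum.inr (z, u)) (Sum.inr (z, v)) with hc2
    have p1 : IsProper G1 c1 := by
      refine ⟨fun u v h => hc.1 _ _ (by simpa using h), fun u v w h h' hne => ?_⟩
      exact hc.2 _ _ _ (by simpa using h) (by simpa using h') (by simpa using hne)
    have p2 : ∀ z, IsProper G2 (c2 z) := by
      intro z
      refine ⟨fun u v h => hc.1 _ _ ?_, fun u v w h h' hne => ?_⟩
      · rw [sum_adj_inr]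
        exact ⟨rfl, h⟩
      · refine hc.2 _ _ _ ?_ ?_ (by simpa using hne)
        · rw [sum_adj_inr]
          exact ⟨rfl, h⟩
        · rw [sum_adj_inr]
          exact ⟨rfl, h'⟩
    obtain ⟨f, f1, f2, f3⟩ := w1 c1 p1
    -- the colours of the rainbow copy of `H`
    set S : Set ℕ := {s | ∃ a b, H.Adj a b ∧ c1 (f a) (f b) = s} with hS
    set col : Sym2 W → ℕ := fun e => c1 (f (Quot.out e).1) (f (Quot.out e).2) with hcol
    have hSsub : S ⊆ col '' H.edgeSet := by
      rintro s ⟨a, b, hab, rfl⟩
      refine ⟨s(a, b), hab, ?_⟩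
      have ho : s((Quot.out s(a, b)).1, (Quot.out s(a, b)).2) = s(a, b) := Quot.out_eq _
      rcases Sym2.eq_iff.1 ho with ⟨e1, e2⟩ | ⟨e1, e2⟩
      · simp only [hcol]
        rw [e1, e2]
      · simp only [hcol]
        rw [e1, e2]
        exact p1.1 _ _ (f2 _ _ hab.symm)
    have hSfin : S.Finite := (Set.toFinite _).subset hSsub
    have hScard : S.ncard ≤ H.edgeSet.ncard :=
      (Set.ncard_le_ncard hSsub (Set.toFinite _)).trans (Set.ncard_image_le (Set.toFinite _))
    obtain ⟨a0, b0, hab0⟩ : ∃ a b, H.Adj a b := by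
      by_contra hcon
      push Not at hcon
      apply hH
      ext a b
      simpa using hcon a b
    have hSH : ∀ a b, H.Adj a b → c1 (f a) (f b) ∈ S := fun a b hab => ⟨a, b, hab, rfl⟩
    have hcard : S.ncard + {x | ctr x ∈ (Finset.univ : Finset U) ∧ ctr x ≠ x}.ncard ≤ r + 1 := by
      have h1 := leaves_le hF
      have h2 : {x | ctr x ∈ (Finset.univ : Finset U) ∧ ctr x ≠ x} = {x | ctr x ≠ x} := by
        ext x; simp
      rw [h2]
      omega
    obtain ⟨v, g, hvg, hvgc⟩ := pick G2 (c1 (f a0) (f b0)) c2 p2 (fun u => w2 (c2 u) (p2 u) _) S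
      hSfin (hSH a0 b0 hab0) ctr Finset.univ hcard
    have hvg' : ∀ x, ctr x ≠ x → G2.Adj (v (ctr x)) (g x) ∧ c2 (ctr x) (v (ctr x)) (g x) ∉ S :=
      fun x hx => hvg x (Finset.mem_univ _) hx
    set k : U → U × V2 := fun x => (ctr x, if ctr x = x then v x else g x) with hk
    have hstar : ∀ x y, F.Adj x y → (copies U G2).Adj (k x) (k y) ∧
        ∃ l, ctr l ≠ l ∧ s(x, y) = s(ctr l, l) ∧
          c (Sum.inr (k x)) (Sum.inr (k y)) = c2 (ctr l) (v (ctr l)) (g l) := by
      intro x y hxy
      obtain ⟨hne, h1 | h1⟩ := (hF.2 x y).1 hxy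
      · -- `y` is the centre, `x` the leaf
        have hl : ctr x ≠ x := by rw [h1]; exact hne.symm
        have hy : ctr y = y := by rw [← h1, hF.1]
        have hkx : k x = (ctr x, g x) := by simp only [hk, if_neg hl]
        have hky : k y = (ctr x, v (ctr x)) := by
          simp only [hk, if_pos hy]
          rw [hy, h1]
        have hadj := (hvg' x hl).1
        refine ⟨by rw [hkx, hky]; exact ⟨rfl, hadj.symm⟩, x, hl, by rw [h1, Sym2.eq_swap], ?_⟩
        rw [hkx, hky]
        exact (p2 (ctr x)).1 _ _ hadj.symm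
      · have hl : ctr y ≠ y := by rw [h1]; exact hne
        have hx : ctr x = x := by rw [← h1, hF.1]
        have hky : k y = (ctr y, g y) := by simp only [hk, if_neg hl]
        have hkx : k x = (ctr y, v (ctr y)) := by
          simp only [hk, if_pos hx]
          rw [hx, h1]
        have hadj := (hvg' y hl).1
        refine ⟨by rw [hkx, hky]; exact ⟨rfl, hadj⟩, y, hl, by rw [h1], ?_⟩
        rw [hkx, hky]
    have hkinj : Function.Injective k := by
      intro x y hxy
      have h1 : ctr x = ctr y := congrArg Prod.fst hxy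
      have h2 : (if ctr x = x then v x else g x) = (if ctr y = y then v y else g y) :=
        congrArg Prod.snd hxy
      by_cases hx : ctr x = x <;> by_cases hy : ctr y = y
      · rw [← hx, ← hy, h1]
      · exfalso
        rw [if_pos hx, if_neg hy] at h2
        have h3 := (hvg' y hy).1
        rw [← h2, ← h1, hx] at h3
        exact G2.irrefl h3
      · exfalso
        rw [if_neg hx, if_pos hy] at h2
        have h3 := (hvg' x hx).1
        rw [h2, h1, hy] at h3
        exact G2.irrefl h3
      · rw [if_neg hx, if_neg hy] at h2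
        by_contra hne
        refine hvgc x y (Finset.mem_univ _) hx (Finset.mem_univ _) hy hne ?_
        rw [h1, h2]
    refine ⟨Sum.map f k, Function.Injective.sumMap f1 hkinj, ?_, ?_⟩
    · rintro (a | a) (b | b) hab
      · simpa using f2 a b (by simpa using hab)
      · simp at hab
      · simp at hab
      · simpa using (hstar a b (by simpa using hab)).1
    · rintro (a | a) (b | b) (a' | a') (b' | b') hab hab' hne
      all_goals first
        | (simp at hab; done)
        | (simp at hab'; done)
        | skip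
      · have h1 : H.Adj a b := by simpa using hab
        have h2 : H.Adj a' b' := by simpa using hab'
        exact f3 a b a' b' h1 h2 (fun he => hne (by simpa using he))
      · have h1 : H.Adj a b := by simpa using hab
        obtain ⟨-, l, hl, -, hi⟩ := hstar a' b' (by simpa using hab')
        intro he
        have he' : c1 (f a) (f b) = c (Sum.inr (k a')) (Sum.inr (k b')) := he
        rw [hi] at he'
        exact (hvg' l hl).2 (he' ▸ hSH a b h1)
      · have h1 : H.Adj a' b' := by simpa using hab'
        obtain ⟨-, l, hl, -, hi⟩ := hstar a b (by simpa using hab)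
        intro he
        have he' : c (Sum.inr (k a)) (Sum.inr (k b)) = c1 (f a') (f b') := he
        rw [hi] at he'
        exact (hvg' l hl).2 (he'.symm ▸ hSH a' b' h1)
      · obtain ⟨-, l, hl, hi1, hi2⟩ := hstar a b (by simpa using hab)
        obtain ⟨-, m, hm, hj1, hj2⟩ := hstar a' b' (by simpa using hab')
        intro he
        have he' : c (Sum.inr (k a)) (Sum.inr (k b)) = c (Sum.inr (k a')) (Sum.inr (k b')) := he
        rw [hi2, hj2] at he'
        have hlm : l = m := by
          by_contra hlm
          exact hvgc l m (Finset.mem_univ _) hl (Finset.mem_univ _) hm hlm he'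
        apply hne
        have : s(a, b) = s(a', b') := by rw [hi1, hj1, hlm]
        simpa using this

lemma max_sInf {A B : Set ℕ} (hA : ∀ r r', r ≤ r' → r ∈ A → r' ∈ A)
    (hB : ∀ r r', r ≤ r' → r ∈ B → r' ∈ B) (R : ℕ) (h : ∀ r, R ≤ r → (r ∈ A ↔ r ∈ B)) :
    max (sInf A) R = max (sInf B) R := by
  have key : ∀ {A B : Set ℕ}, (∀ r r', r ≤ r' → r ∈ A → r' ∈ A) →
      (∀ r, R ≤ r → (r ∈ A ↔ r ∈ B)) → A.Nonempty → max (sInf B) R ≤ max (sInf A) R := by
    intro A B hA h hne
    refine max_le ?_ (le_max_right _ _)
    exact Nat.sInf_le ((h _ (le_max_right _ _)).1 (hA _ _ (le_max_left _ _) (Nat.sInf_mem hne)))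
  rcases A.eq_empty_or_nonempty with hAe | hAn
  · rcases B.eq_empty_or_nonempty with hBe | ⟨b, hb⟩
    · rw [hAe, hBe]
    · exfalso
      have := (h _ (le_max_right b R)).2 (hB _ _ (le_max_left b R) hb)
      rw [hAe] at this
      exact this
  · have hBn : B.Nonempty := by
      obtain ⟨a, ha⟩ := hAn
      exact ⟨_, (h _ (le_max_right a R)).1 (hA _ _ (le_max_left a R) ha)⟩
    exact le_antisymm (key hB (fun r hr => (h r hr).symm) hBn) (key hA h hAn)

/-- Let `H` be a finite graph with at least one edge and `F` a finite disjoint union of stars, with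
at least three edges together.  Then the degree anti-Ramsey numbers of `H` and of the disjoint union
of `H` and `F` agree, or both are at most `e(H) + e(F) - 1`. -/
theorem result {W U : Type} [Finite W] [Finite U] (H : SimpleGraph W) (hH : H ≠ ⊥)
    (F : SimpleGraph U) (ctr : U → U) (hF : IsStarForest F ctr)
    (h : 3 ≤ H.edgeSet.ncard + F.edgeSet.ncard) :
    max (arD (H ⊕g F)) (H.edgeSet.ncard + F.edgeSet.ncard - 1) =
      max (arD H) (H.edgeSet.ncard + F.edgeSet.ncard - 1) := by
  refine max_sInf (fun r r' hr hw => works_mono hr hw) (fun r r' hr hw => works_mono hr hw) _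
    (fun r hr => ⟨fun hw => works_of_sum hw, fun hw => ?_⟩)
  exact works_stars hH hF (good (by omega)) (by omega) hw

end Pool.Agent.Results.MP_1d1f41_co.StarComponents
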