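import Pool.Agent.Results.MP_1d1f41_co.StarComponents

/-!
# Degree anti-Ramsey numbers: computability and the graphs attaining the trivial bound

Computing the degree anti-Ramsey number is equivalent to deciding which graphs attain the trivial
lower bound.
-/

set_option autoImplicit false

namespace Pool.Agent.Results.MP_1d1f41_co.TightGraphs

open SimpleGraph Pool.Agent.Results.MP_1d1f41_co.StarComponents

/-- The graph with the code `p = (n, l)`: its vertices are `0, …, n - 1`, and two different vertices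
`a`, `b` are adjacent if `(a, b)` or `(b, a)` occurs in the list `l`. -/
def gr (p : ℕ × List (ℕ × ℕ)) : SimpleGraph (Fin p.1) where
  Adj a b := a ≠ b ∧ (((a : ℕ), (b : ℕ)) ∈ p.2 ∨ ((b : ℕ), (a : ℕ)) ∈ p.2)
  symm := ⟨fun _ _ h => ⟨h.1.symm, h.2.symm⟩⟩
  loopless := ⟨fun _ h => h.1 rfl⟩

/-- The code of the disjoint union of the graph with the code `p` and `m` edges. -/
def add (p : ℕ × List (ℕ × ℕ)) (m : ℕ) : ℕ × List (ℕ × ℕ) :=
  (p.1 + m * 2, p.2.filter (fun q => q.1 < p.1 ∧ q.2 < p.1) ++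
    (List.range m).map (fun i => (p.1 + 2 * i, p.1 + (2 * i + 1))))

/-- `m` disjoint edges. -/
def mat (m : ℕ) : SimpleGraph (Fin m × Fin 2) where
  Adj a b := a.1 = b.1 ∧ a.2 ≠ b.2
  symm := ⟨fun _ _ h => ⟨h.1.symm, h.2.symm⟩⟩
  loopless := ⟨fun _ h => h.2 rfl⟩

lemma mat_star (m : ℕ) : IsStarForest (mat m) (fun x => (x.1, 0)) := by
  refine ⟨fun x => rfl, ?_⟩
  rintro ⟨i, b⟩ ⟨j, c⟩
  simp only [mat, ne_eq, Prod.mk.injEq]
  constructor
  · rintro ⟨h1, h2⟩
    refine ⟨fun h => h2 h.2, ?_⟩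
    rcases (by omega : (c = 0) ∨ (b = 0)) with h3 | h3
    · exact Or.inl ⟨h1, h3.symm⟩
    · exact Or.inr ⟨h1.symm, h3.symm⟩
  · rintro ⟨h1, h2 | h2⟩
    · exact ⟨h2.1, fun h => h1 ⟨h2.1, h⟩⟩
    · exact ⟨h2.1.symm, fun h => h1 ⟨h2.1.symm, h⟩⟩

lemma edges_star {U : Type} [Finite U] {F : SimpleGraph U} {ctr : U → U}
    (hF : IsStarForest F ctr) : F.edgeSet.ncard = {x | ctr x ≠ x}.ncard := by
  refine le_antisymm ?_ (leaves_le hF)
  have h1 : F.edgeSet ⊆ (fun x => s(x, ctr x)) '' {x | ctr x ≠ x} := by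
    intro e
    induction e using Sym2.ind with
    | _ x y =>
      intro h
      obtain ⟨hne, h2 | h2⟩ := (hF.2 x y).1 h
      · exact ⟨x, by rw [Set.mem_ofPred_eq, h2]; exact hne.symm, by simp only [h2]⟩
      · exact ⟨y, by rw [Set.mem_ofPred_eq, h2]; exact hne, by simp only [h2]; exact Sym2.eq_swap⟩
  exact (Set.ncard_le_ncard h1 (Set.toFinite _)).trans (Set.ncard_image_le (Set.toFinite _))

lemma edges_mat (m : ℕ) : (mat m).edgeSet.ncard = m := by
  rw [edges_star (mat_star m)]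
  have : {x : Fin m × Fin 2 | (x.1, (0 : Fin 2)) ≠ x} = Set.univ ×ˢ ({0}ᶜ : Set (Fin 2)) := by
    ext ⟨i, b⟩
    simp only [ne_eq, Prod.mk.injEq, true_and, Set.mem_ofPred_eq, Set.mem_prod, Set.mem_univ,
      Set.mem_compl_iff, Set.mem_singleton_iff]
    exact ⟨fun h e => h e.symm, fun h e => h e.symm⟩
  rw [this, Set.ncard_prod, Set.ncard_compl]
  simp

lemma works_hom {W W' : Type} {H : SimpleGraph W} {K : SimpleGraph W'} (φ : W → W')
    (hφ : Function.Injective φ) (h : ∀ a b, H.Adj a b → K.Adj (φ a) (φ b)) {r : ℕ}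
    (hw : Works K r) : Works H r := by
  obtain ⟨V, hV, G, h1, h2⟩ := hw
  refine ⟨V, hV, G, h1, fun c hc => ?_⟩
  obtain ⟨f, f1, f2, f3⟩ := h2 c hc
  refine ⟨f ∘ φ, f1.comp hφ, fun a b hab => f2 _ _ (h a b hab), ?_⟩
  intro a b a' b' hab hab' hne
  refine f3 _ _ _ _ (h a b hab) (h a' b' hab') ?_
  intro he
  apply hne
  have h3 : Sym2.map φ s(a, b) = Sym2.map φ s(a', b') := he
  exact Sym2.map.injective hφ h3

lemma arD_iso {W W' : Type} {H : SimpleGraph W} {K : SimpleGraph W'} (e : H ≃g K) :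
    arD H = arD K := by
  unfold arD
  congr 1
  ext r
  exact ⟨fun h => works_hom e.symm e.symm.injective (fun a b hab => e.symm.map_adj_iff.2 hab) h,
    fun h => works_hom e e.injective (fun a b hab => e.map_adj_iff.2 hab) h⟩

lemma mem_add (p : ℕ × List (ℕ × ℕ)) (m x y : ℕ) : (x, y) ∈ (add p m).2 ↔
    ((x, y) ∈ p.2 ∧ x < p.1 ∧ y < p.1) ∨ ∃ i < m, x = p.1 + 2 * i ∧ y = p.1 + (2 * i + 1) := by
  simp only [add, List.mem_append, List.mem_filter, List.mem_map, List.mem_range,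
    decide_eq_true_eq, Prod.mk.injEq]
  constructor
  · rintro (h | ⟨i, h1, h2, h3⟩)
    · exact Or.inl h
    · exact Or.inr ⟨i, h1, h2.symm, h3.symm⟩
  · rintro (h | ⟨i, h1, h2, h3⟩)
    · exact Or.inl h
    · exact Or.inr ⟨i, h1, h2.symm, h3.symm⟩

/-- The vertices of `add p m`. -/
def addEquiv (p : ℕ × List (ℕ × ℕ)) (m : ℕ) : Fin p.1 ⊕ (Fin m × Fin 2) ≃ Fin (add p m).1 :=
  (Equiv.sumCongr (Equiv.refl (Fin p.1)) finProdFinEquiv).trans
    (finSumFinEquiv : Fin p.1 ⊕ Fin (m * 2) ≃ Fin (p.1 + m * 2))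

lemma addEquiv_inl (p : ℕ × List (ℕ × ℕ)) (m : ℕ) (a : Fin p.1) :
    ((addEquiv p m (Sum.inl a) : Fin (add p m).1) : ℕ) = a := by
  change (((Equiv.sumCongr (Equiv.refl (Fin p.1)) finProdFinEquiv).trans
    (finSumFinEquiv : Fin p.1 ⊕ Fin (m * 2) ≃ Fin (p.1 + m * 2))) (Sum.inl a) : ℕ) = a
  simp

lemma addEquiv_inr (p : ℕ × List (ℕ × ℕ)) (m : ℕ) (a : Fin m × Fin 2) :
    ((addEquiv p m (Sum.inr a) : Fin (add p m).1) : ℕ) = p.1 + ((a.2 : ℕ) + 2 * (a.1 : ℕ)) := by
  change (((Equiv.sumCongr (Equiv.refl (Fin p.1)) finProdFinEquiv).trans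
    (finSumFinEquiv : Fin p.1 ⊕ Fin (m * 2) ≃ Fin (p.1 + m * 2))) (Sum.inr a) : ℕ) = _
  rcases a with ⟨i, b⟩
  simp

/-- The graph of `add p m` is the disjoint union. -/
def addIso (p : ℕ × List (ℕ × ℕ)) (m : ℕ) : gr p ⊕g mat m ≃g gr (add p m) where
  toEquiv := addEquiv p m
  map_rel_iff' := by
    have hl := addEquiv_inl p m
    have hr := addEquiv_inr p m
    intro a b
    change (_ ≠ _ ∧ (_ ∈ (add p m).2 ∨ _ ∈ (add p m).2)) ↔ _
    rw [mem_add, mem_add, (Equiv.injective _).ne_iff]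
    rcases a with a | ⟨i, b'⟩ <;> rcases b with c | ⟨j, c'⟩
    · rw [hl, hl, sum_adj_inl]
      have h1 := a.2
      have h2 := c.2
      simp only [gr, ne_eq, Sum.inl.injEq]
      constructor
      · rintro ⟨h3, (h4 | ⟨k, h5, h6, h7⟩) | (h4 | ⟨k, h5, h6, h7⟩)⟩
        · exact ⟨h3, Or.inl h4.1⟩
        · omega
        · exact ⟨h3, Or.inr h4.1⟩
        · omega
      · rintro ⟨h3, h4 | h4⟩
        · exact ⟨h3, Or.inl (Or.inl ⟨h4, h1, h2⟩)⟩
        · exact ⟨h3, Or.inr (Or.inl ⟨h4, h2, h1⟩)⟩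
    · rw [hl, hr]
      have h1 := a.2
      simp only [not_adj_sum_inl_inr, iff_false, not_and, not_or, not_exists]
      intro _
      refine ⟨⟨fun _ h => by omega, fun k _ => by omega⟩, ⟨fun _ h => by omega, fun k _ => by omega⟩⟩
    · rw [hl, hr]
      have h1 := c.2
      have h0 : ¬ (gr p ⊕g mat m).Adj (Sum.inr (i, b')) (Sum.inl c) := fun h =>
        not_adj_sum_inl_inr _ _ h.symm
      simp only [h0, iff_false, not_and, not_or, not_exists]
      intro _
      refine ⟨⟨fun _ h => by omega, fun k _ => by omega⟩, ⟨fun _ h => by omega, fun k _ => by omega⟩⟩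
    · rw [hr, hr, sum_adj_inr]
      have h1 := i.2
      have h2 := j.2
      have h3 := b'.2
      have h4 := c'.2
      simp only [mat, ne_eq, Sum.inr.injEq, Prod.mk.injEq, Fin.ext_iff]
      constructor
      · rintro ⟨h3, (h4 | ⟨k, h5, h6, h7⟩) | (h4 | ⟨k, h5, h6, h7⟩)⟩
        · omega
        · omega
        · omega
        · omega
      · rintro ⟨h5, h6⟩
        refine ⟨by omega, ?_⟩
        rcases (by omega : ((b' : ℕ) = 0 ∧ (c' : ℕ) = 1) ∨ ((b' : ℕ) = 1 ∧ (c' : ℕ) = 0)) with h7 | h7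
        · exact Or.inl (Or.inr ⟨i, h1, by omega, by omega⟩)
        · exact Or.inr (Or.inr ⟨i, h1, by omega, by omega⟩)

lemma edges_add (p : ℕ × List (ℕ × ℕ)) (m : ℕ) :
    (gr (add p m)).edgeSet.ncard = (gr p).edgeSet.ncard + m := by
  have h1 := Nat.card_congr (addIso p m).mapEdgeSet
  have h2 := Nat.card_congr (edgeSetSumEquiv (G := gr p) (H := mat m))
  rw [Nat.card_sum, Nat.card_coe_set_eq, Nat.card_coe_set_eq, Nat.card_coe_set_eq, edges_mat] at h2
  rw [Nat.card_coe_set_eq, Nat.card_coe_set_eq] at h1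
  rw [← h1, h2]

/-- The number of edges of the graph with the code `p`. -/
def ecount (p : ℕ × List (ℕ × ℕ)) : ℕ :=
  ((List.range p.1).map (fun a => ((List.range p.1).filter
    (fun b => b ≠ a ∧ ((a, b) ∈ p.2 ∨ (b, a) ∈ p.2))).length)).sum / 2

lemma ecount_eq (p : ℕ × List (ℕ × ℕ)) : (gr p).edgeSet.ncard = ecount p := by
  classical
  have h1 := (gr p).sum_degrees_eq_twice_card_edges
  have h2 : (gr p).edgeSet.ncard = (gr p).edgeFinset.card := by
    rw [Set.ncard_eq_toFinset_card']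
    rfl
  have h3 : ∀ a : Fin p.1, (gr p).degree a = ((List.range p.1).filter
      (fun b => b ≠ (a : ℕ) ∧ (((a : ℕ), b) ∈ p.2 ∨ (b, (a : ℕ)) ∈ p.2))).length := by
    intro a
    have h4 : ((Finset.range p.1).filter
      (fun b => b ≠ (a : ℕ) ∧ (((a : ℕ), b) ∈ p.2 ∨ (b, (a : ℕ)) ∈ p.2))) =
      ((gr p).neighborFinset a).map Fin.valEmbedding := by
      ext b
      simp only [Finset.mem_filter, Finset.mem_range, Finset.mem_map, mem_neighborFinset]
      constructor
      · rintro ⟨hb, hne, h⟩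
        refine ⟨⟨b, hb⟩, ⟨fun he => hne (by rw [he]), h⟩, rfl⟩
      · rintro ⟨b', ⟨hne, h⟩, rfl⟩
        exact ⟨b'.2, fun he => hne (Fin.ext he.symm), h⟩
    have h5 : ((gr p).neighborFinset a).card = ((Finset.range p.1).filter
      (fun b => b ≠ (a : ℕ) ∧ (((a : ℕ), b) ∈ p.2 ∨ (b, (a : ℕ)) ∈ p.2))).card := by
      rw [h4, Finset.card_map]
    rw [← card_neighborFinset_eq_degree, h5]
    rfl
  have h4 : ∑ a : Fin p.1, (gr p).degree a = ((List.range p.1).map (fun a =>
      ((List.range p.1).filter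
        (fun b => b ≠ a ∧ ((a, b) ∈ p.2 ∨ (b, a) ∈ p.2))).length)).sum := by
    rw [Finset.sum_congr rfl (fun a _ => h3 a)]
    rw [Fin.sum_univ_eq_sum_range (fun a => ((List.range p.1).filter
      (fun b => b ≠ a ∧ ((a, b) ∈ p.2 ∨ (b, a) ∈ p.2))).length) p.1]
    rfl
  rw [h2, ecount, ← h4, h1]
  omega

lemma primrec_sum : Primrec (List.sum : List ℕ → ℕ) := by
  refine (Primrec.list_foldr Primrec.id (Primrec.const 0)
    (Primrec.nat_add.comp (Primrec.fst.comp Primrec.snd) (Primrec.snd.comp Primrec.snd)).to₂).of_eq ?_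
  intro l
  simp only [id]
  induction l with
  | nil => rfl
  | cons a l ih => rw [List.foldr_cons, List.sum_cons, ih]

lemma primrec_mem : PrimrecRel (fun (L : List (ℕ × ℕ)) (b : ℕ × ℕ) => b ∈ L) := by
  have h : PrimrecRel (fun (a b : ℕ × ℕ) => a = b) := Primrec.eq
  refine (PrimrecRel.exists_mem_list h).of_eq ?_
  intro L b
  simp

lemma primrec_ecount : Primrec ecount := by
  classical
  have hR : PrimrecRel (fun (b : ℕ) (q : (ℕ × List (ℕ × ℕ)) × ℕ) =>
      b ≠ q.2 ∧ ((q.2, b) ∈ q.1.2 ∨ (b, q.2) ∈ q.1.2)) := by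
    have e1 : Primrec (fun x : ℕ × ((ℕ × List (ℕ × ℕ)) × ℕ) => x.2.2) :=
      Primrec.snd.comp Primrec.snd
    have e2 : Primrec (fun x : ℕ × ((ℕ × List (ℕ × ℕ)) × ℕ) => x.2.1.2) :=
      Primrec.snd.comp (Primrec.fst.comp Primrec.snd)
    have e3 : Primrec (fun x : ℕ × ((ℕ × List (ℕ × ℕ)) × ℕ) => x.1) := Primrec.fst
    have a1 : PrimrecPred (fun x : ℕ × ((ℕ × List (ℕ × ℕ)) × ℕ) => x.1 = x.2.2) :=
      Primrec.eq.comp e3 e1
    have a2 : PrimrecPred (fun x : ℕ × ((ℕ × List (ℕ × ℕ)) × ℕ) => (x.2.2, x.1) ∈ x.2.1.2) :=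
      primrec_mem.comp e2 (e1.pair e3)
    have a3 : PrimrecPred (fun x : ℕ × ((ℕ × List (ℕ × ℕ)) × ℕ) => (x.1, x.2.2) ∈ x.2.1.2) :=
      primrec_mem.comp e2 (e3.pair e1)
    exact a1.not.and (a2.or a3)
  have hf := hR.listFilter
  have h1 : Primrec (fun p : ℕ × List (ℕ × ℕ) => List.range p.1) :=
    Primrec.list_range.comp Primrec.fst
  have h2 : Primrec₂ (fun (p : ℕ × List (ℕ × ℕ)) (a : ℕ) => ((List.range p.1).filter
      (fun b => b ≠ a ∧ ((a, b) ∈ p.2 ∨ (b, a) ∈ p.2))).length) := by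
    have h3 : Primrec (fun x : (ℕ × List (ℕ × ℕ)) × ℕ => List.filter (fun b =>
        decide (b ≠ x.2 ∧ ((x.2, b) ∈ x.1.2 ∨ (b, x.2) ∈ x.1.2))) (List.range x.1.1)) :=
      hf.comp (h1.comp Primrec.fst) Primrec.id
    exact (Primrec.list_length.comp h3).to₂.of_eq (fun p a => rfl)
  exact (Primrec.nat_div.comp (primrec_sum.comp (Primrec.list_map h1 h2)) (Primrec.const 2)).of_eq
    (fun p => rfl)

lemma primrec_add : Primrec₂ add := by
  classical
  have hR : PrimrecRel (fun (q : ℕ × ℕ) (n : ℕ) => q.1 < n ∧ q.2 < n) := by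
    have a1 : PrimrecPred (fun x : (ℕ × ℕ) × ℕ => x.1.1 < x.2) :=
      Primrec.nat_lt.comp (Primrec.fst.comp Primrec.fst) Primrec.snd
    have a2 : PrimrecPred (fun x : (ℕ × ℕ) × ℕ => x.1.2 < x.2) :=
      Primrec.nat_lt.comp (Primrec.snd.comp Primrec.fst) Primrec.snd
    exact a1.and a2
  have hf := hR.listFilter
  have e1 : Primrec (fun x : (ℕ × List (ℕ × ℕ)) × ℕ => x.1.1) := Primrec.fst.comp Primrec.fst
  have e2 : Primrec (fun x : (ℕ × List (ℕ × ℕ)) × ℕ => x.1.2) := Primrec.snd.comp Primrec.fst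
  have e3 : Primrec (fun x : (ℕ × List (ℕ × ℕ)) × ℕ => x.2) := Primrec.snd
  have h1 : Primrec (fun x : (ℕ × List (ℕ × ℕ)) × ℕ => x.1.1 + x.2 * 2) :=
    Primrec.nat_add.comp e1 (Primrec.nat_mul.comp e3 (Primrec.const 2))
  have h2 : Primrec (fun x : (ℕ × List (ℕ × ℕ)) × ℕ =>
      x.1.2.filter (fun q => decide (q.1 < x.1.1 ∧ q.2 < x.1.1))) := hf.comp e2 e1
  have h3 : Primrec₂ (fun (x : (ℕ × List (ℕ × ℕ)) × ℕ) (i : ℕ) =>
      (x.1.1 + 2 * i, x.1.1 + (2 * i + 1))) := by
    have f1 : Primrec (fun y : ((ℕ × List (ℕ × ℕ)) × ℕ) × ℕ => y.1.1.1) := e1.comp Primrec.fst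
    have f2 : Primrec (fun y : ((ℕ × List (ℕ × ℕ)) × ℕ) × ℕ => 2 * y.2) :=
      Primrec.nat_mul.comp (Primrec.const 2) Primrec.snd
    exact (Primrec.nat_add.comp f1 f2).pair
      (Primrec.nat_add.comp f1 (Primrec.succ.comp f2))
  have h4 : Primrec (fun x : (ℕ × List (ℕ × ℕ)) × ℕ =>
      (List.range x.2).map (fun i => (x.1.1 + 2 * i, x.1.1 + (2 * i + 1)))) :=
    Primrec.list_map (Primrec.list_range.comp e3) h3
  exact (h1.pair (Primrec.list_append.comp h2 h4)).to₂.of_eq (fun p m => rfl)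

lemma arD_bot {W : Type} [Finite W] : arD (⊥ : SimpleGraph W) = 0 := by
  apply Nat.le_zero.1
  refine Nat.sInf_le ⟨W, inferInstance, ⊥, fun v => ?_, fun c _ => ?_⟩
  · have : (⊥ : SimpleGraph W).neighborSet v = ∅ := by ext w; simp
    rw [this]; simp
  · exact ⟨id, Function.injective_id, fun a b h => h, fun a b _ _ h => absurd h (by simp)⟩

lemma arD_one {W : Type} [Finite W] {H : SimpleGraph W} (h : H.edgeSet.ncard = 1) : arD H = 1 := by
  obtain ⟨e, he⟩ := Set.ncard_eq_one.1 h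
  have huniq : ∀ a b a' b', H.Adj a b → H.Adj a' b' → s(a, b) = s(a', b') := by
    intro a b a' b' h1 h2
    have h3 : s(a, b) ∈ H.edgeSet := h1
    have h4 : s(a', b') ∈ H.edgeSet := h2
    rw [he, Set.mem_singleton_iff] at h3 h4
    rw [h3, h4]
  have h1 : Works H 1 := by
    refine ⟨W, inferInstance, H, fun v => ?_, fun c _ => ?_⟩
    · rw [Set.ncard_le_one]
      intro w hw w' hw'
      have := huniq v w v w' hw hw'
      rcases Sym2.eq_iff.1 this with h2 | h2
      · exact h2.2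
      · rw [h2.2, ← h2.1]
    · exact ⟨id, Function.injective_id, fun a b h => h,
        fun a b a' b' h1 h2 h3 => absurd (huniq a b a' b' h1 h2) h3⟩
  have h0 : ¬ Works H 0 := by
    rintro ⟨V, hV, G, h2, h3⟩
    have h4 : ∀ u v, ¬ G.Adj u v := by
      intro u v huv
      have h5 := Nat.le_zero.1 (h2 u)
      rw [Set.ncard_eq_zero] at h5
      have h6 : v ∈ G.neighborSet u := huv
      rw [h5] at h6
      exact h6
    obtain ⟨f, -, f2, -⟩ := h3 (fun _ _ => 0) ⟨fun _ _ _ => rfl, fun u v w h => absurd h (h4 u v)⟩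
    induction e using Sym2.ind with
    | _ a b =>
      have h5 : H.Adj a b := by
        have : s(a, b) ∈ H.edgeSet := by rw [he]; rfl
        exact this
      exact h4 _ _ (f2 a b h5)
  have h2 : arD H ≤ 1 := Nat.sInf_le h1
  have h3 : Works H (arD H) := Nat.sInf_mem (s := {r | Works H r}) ⟨1, h1⟩
  rcases Nat.lt_or_ge (arD H) 1 with h4 | h4
  · exfalso
    rw [Nat.lt_one_iff.1 h4] at h3
    exact h0 h3
  · omega

lemma tight_iff (p : ℕ × List (ℕ × ℕ)) (m : ℕ) (hp : 2 ≤ (gr p).edgeSet.ncard) :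
    arD (gr (add p (m + 1))) < (gr (add p (m + 1))).edgeSet.ncard ↔
      arD (gr p) ≤ (gr p).edgeSet.ncard + m := by
  have hne : gr p ≠ ⊥ := by
    intro h
    rw [h] at hp
    simp at hp
  have h1 := StarComponents.result (gr p) hne (mat (m + 1)) _ (mat_star (m + 1))
    (by rw [edges_mat]; omega)
  rw [edges_mat] at h1
  rw [edges_add, ← arD_iso (addIso p (m + 1))]
  omega

/-- The function `H ↦ max (AR_d(H), e(H) - 1)` on the codes of finite graphs is computable if and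
only if the set of the codes of the graphs `H` with `AR_d(H) < e(H)` is decidable. -/
theorem result :
    Computable (fun p : ℕ × List (ℕ × ℕ) => max (arD (gr p)) ((gr p).edgeSet.ncard - 1)) ↔
      ComputablePred (fun p : ℕ × List (ℕ × ℕ) => arD (gr p) < (gr p).edgeSet.ncard) := by
  classical
  have he : Computable (fun p : ℕ × List (ℕ × ℕ) => (gr p).edgeSet.ncard) :=
    primrec_ecount.to_comp.of_eq (fun p => (ecount_eq p).symm)
  have hlt : Computable₂ (fun a b : ℕ => decide (a < b)) := Primrec.nat_lt.decide.to_comp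
  constructor
  · intro h
    have h1 : Computable (fun p : ℕ × List (ℕ × ℕ) =>
        decide (max (arD (gr p)) ((gr p).edgeSet.ncard - 1) < (gr p).edgeSet.ncard)) :=
      hlt.comp h he
    refine h1.computablePred.of_eq (fun p => ?_)
    omega
  · intro h
    have hT : Computable (fun p : ℕ × List (ℕ × ℕ) =>
        decide (arD (gr p) < (gr p).edgeSet.ncard)) := h.decide
    set P : ℕ × List (ℕ × ℕ) → ℕ → Prop := fun p m =>
      arD (gr (add p (m + 1))) < (gr (add p (m + 1))).edgeSet.ncard ∨ (gr p).edgeSet.ncard < 2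
      with hP
    have hPc : ComputablePred (fun x : (ℕ × List (ℕ × ℕ)) × ℕ => P x.1 x.2) := by
      have h1 : Computable (fun x : (ℕ × List (ℕ × ℕ)) × ℕ => add x.1 (x.2 + 1)) :=
        primrec_add.to_comp.comp Computable.fst (Computable.succ.comp Computable.snd)
      have h2 : Computable (fun x : (ℕ × List (ℕ × ℕ)) × ℕ => decide
          (arD (gr (add x.1 (x.2 + 1))) < (gr (add x.1 (x.2 + 1))).edgeSet.ncard)) := hT.comp h1
      have h3 : Computable (fun x : (ℕ × List (ℕ × ℕ)) × ℕ => decide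
          ((gr x.1).edgeSet.ncard < 2)) :=
        hlt.comp (he.comp Computable.fst) (Computable.const 2)
      refine Computable.computablePred ((Primrec.or.to_comp.comp h2 h3).of_eq (fun x => ?_))
      simp only [hP, Bool.decide_or]
    have hex : ∀ p, ∃ m, P p m := by
      intro p
      rcases Nat.lt_or_ge (gr p).edgeSet.ncard 2 with h1 | h1
      · exact ⟨0, Or.inr h1⟩
      · exact ⟨arD (gr p), Or.inl ((tight_iff p _ h1).2 (by omega))⟩
    have hfind : Computable (fun p => Nat.find (hex p)) := Computable.find hPc hex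
    have h1 : Computable (fun p : ℕ × List (ℕ × ℕ) =>
        cond (decide ((gr p).edgeSet.ncard < 2)) (gr p).edgeSet.ncard
          (cond (decide (arD (gr p) < (gr p).edgeSet.ncard)) ((gr p).edgeSet.ncard - 1)
            ((gr p).edgeSet.ncard + Nat.find (hex p)))) :=
      Computable.cond (hlt.comp he (Computable.const 2)) he
        (Computable.cond hT (Computable.pred.comp he)
          (Primrec.nat_add.to_comp.comp he hfind))
    refine h1.of_eq (fun p => ?_)
    rcases Nat.lt_or_ge (gr p).edgeSet.ncard 2 with h2 | h2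
    · rw [decide_eq_true h2, cond_true]
      rcases (by omega : (gr p).edgeSet.ncard = 0 ∨ (gr p).edgeSet.ncard = 1) with h3 | h3
      · have h4 : gr p = ⊥ := by
          rw [Set.ncard_eq_zero] at h3
          exact edgeSet_eq_empty.1 h3
        rw [h3, h4, arD_bot]
        rfl
      · rw [h3, arD_one h3]
        rfl
    · rw [decide_eq_false (by omega : ¬ (gr p).edgeSet.ncard < 2), cond_false]
      by_cases h3 : arD (gr p) < (gr p).edgeSet.ncard
      · rw [decide_eq_true h3, cond_true]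
        omega
      · rw [decide_eq_false h3, cond_false]
        have h4 : Nat.find (hex p) = arD (gr p) - (gr p).edgeSet.ncard := by
          rw [Nat.find_eq_iff]
          refine ⟨Or.inl ((tight_iff p _ h2).2 (by omega)), fun m hm hPm => ?_⟩
          rcases hPm with h5 | h5
          · have := (tight_iff p m h2).1 h5
            omega
          · omega
        rw [h4]
        omega

end Pool.Agent.Results.MP_1d1f41_co.TightGraphs
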