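import Mathlib
import Pool.Agent.H29.AR.Odd
import Pool.Agent.H29.AR.Star

/-!
# The degree anti-Ramsey number of a triangle with pendant edges

For every graph `H` which consists of a triangle and of any numbers of pendant edges at its three
vertices, some finite graph of maximum degree `e(H) - 1` has a rainbow copy of `H` in each of its
proper edge colourings. So the general lower bound `AR_d(H) ≥ e(H) - 1` is attained.
-/

set_option autoImplicit false

namespace Pool.Agent.Results.MP_1d1f41_co.TrianglePendants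

open Finset

/-- `c` is a proper edge colouring of `G` (with any number of colours): edges sharing a vertex receive
distinct colours. (Only the values of `c` at edges of `G` matter.) -/
def IsProperColouring {W : Type} (G : SimpleGraph W) (c : Sym2 W → ℕ) : Prop :=
  ∀ v w w', G.Adj v w → G.Adj v w' → w ≠ w' → c s(v, w) ≠ c s(v, w')

/-- The graph `G`, coloured by `c`, contains a rainbow copy of `H`: an injective map `φ` of the
vertices which sends edges to edges, the images of distinct edges having distinct colours. -/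
def HasRainbowCopy {V W : Type} (H : SimpleGraph V) (G : SimpleGraph W) (c : Sym2 W → ℕ) : Prop :=
  ∃ φ : V → W, Function.Injective φ ∧ (∀ u v, H.Adj u v → G.Adj (φ u) (φ v)) ∧
    Set.InjOn (fun e : Sym2 V => c (e.map φ)) H.edgeSet

/-- The degree anti-Ramsey number `AR_d(H)`: the least `r` for which there is a finite graph `G` with
maximum degree `r` such that every proper edge colouring of `G` contains a rainbow copy of `H`. -/
noncomputable def degreeAntiRamsey {V : Type} (H : SimpleGraph V) : ℕ :=
  sInf {r | ∃ (W : Type) (_ : Fintype W) (G : SimpleGraph W) (_ : DecidableRel G.Adj),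
    G.maxDegree = r ∧ ∀ c : Sym2 W → ℕ, IsProperColouring G c → HasRainbowCopy H G c}

/-- The triangle with vertices `inl 0, inl 1, inl 2`, together with `n i` pendant edges
`inl i - inr ⟨i, k⟩`, `k < n i`, at the vertex `inl i`, for `i = 0, 1, 2`. -/
def trianglePendants (n : Fin 3 → ℕ) : SimpleGraph (Fin 3 ⊕ (Σ i, Fin (n i))) :=
  SimpleGraph.fromRel (fun u v =>
    (∃ i j, u = Sum.inl i ∧ v = Sum.inl j) ∨ ∃ i, ∃ k : Fin (n i), u = Sum.inl i ∧ v = Sum.inr ⟨i, k⟩)

/-- The graph has `n 0 + n 1 + n 2 + 3` edges. -/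
lemma ncard_edges (n : Fin 3 → ℕ) : (trianglePendants n).edgeSet.ncard = (∑ i, n i) + 3 := by
  classical
  have hr : (trianglePendants n).edgeSet = Set.range (Sum.elim
      (fun i : Fin 3 => (s(Sum.inl (i + 1), Sum.inl (i + 2)) : Sym2 (Fin 3 ⊕ (Σ i, Fin (n i)))))
      (fun p : (Σ i, Fin (n i)) => s(Sum.inl p.1, Sum.inr p))) := by
    ext e
    constructor
    · intro he
      rcases Pool.Agent.H29.AR.edge_cases n e he with ⟨i, rfl⟩ | ⟨p, rfl⟩
      · exact ⟨Sum.inl i, rfl⟩
      · exact ⟨Sum.inr p, rfl⟩
    · rintro ⟨i | p, rfl⟩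
      · rw [Sum.elim_inl, SimpleGraph.mem_edgeSet]
        have h : ∀ i : Fin 3, i + 1 ≠ i + 2 := by decide
        exact (SimpleGraph.fromRel_adj _ _ _).2 ⟨fun h' => h i (Sum.inl.inj h'), Or.inl (Or.inl ⟨_, _, rfl, rfl⟩)⟩
      · rw [Sum.elim_inr, SimpleGraph.mem_edgeSet]
        exact (SimpleGraph.fromRel_adj _ _ _).2 ⟨Sum.inl_ne_inr, Or.inl (Or.inr ⟨p.1, p.2, rfl, rfl⟩)⟩
  have hinj : Function.Injective (Sum.elim
      (fun i : Fin 3 => (s(Sum.inl (i + 1), Sum.inl (i + 2)) : Sym2 (Fin 3 ⊕ (Σ i, Fin (n i)))))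
      (fun p : (Σ i, Fin (n i)) => s(Sum.inl p.1, Sum.inr p))) := by
    rintro (i | p) (j | q) h
    · simp only [Sum.elim_inl, Sym2.eq_iff, Sum.inl.injEq] at h
      have key : ∀ i j : Fin 3, (i + 1 = j + 1 ∧ i + 2 = j + 2 ∨ i + 1 = j + 2 ∧ i + 2 = j + 1) → i = j := by decide
      rw [key i j h]
    · simp only [Sum.elim_inl, Sum.elim_inr, Sym2.eq_iff] at h
      rcases h with ⟨_, h⟩ | ⟨h, _⟩ <;> exact absurd h (by simp)
    · simp only [Sum.elim_inl, Sum.elim_inr, Sym2.eq_iff] at h
      rcases h with ⟨_, h⟩ | ⟨_, h⟩ <;> exact absurd h (by simp)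
    · simp only [Sum.elim_inr, Sym2.eq_iff] at h
      rcases h with ⟨_, h⟩ | ⟨h, _⟩
      · rw [Sum.inr.inj h]
      · exact absurd h (by simp)
  rw [hr, Set.ncard_range_of_injective hinj, Nat.card_eq_fintype_card, Fintype.card_sum, Fintype.card_fin,
    Fintype.card_sigma, add_comm]
  congr 1
  exact Finset.sum_congr rfl fun i _ => Fintype.card_fin _

lemma maxDegree_eq {W : Type} [Fintype W] (G : SimpleGraph W) [DecidableRel G.Adj] {r : ℕ}
    (h : ∀ v, G.degree v ≤ r) (v : W) (hv : G.degree v = r) : G.maxDegree = r := by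
  classical
  refine le_antisymm ?_ (hv ▸ G.degree_le_maxDegree v)
  exact G.maxDegree_le_of_forall_degree_le r h

open Classical in
lemma witness (n : Fin 3 → ℕ) : ∃ (W : Type) (_ : Fintype W) (G : SimpleGraph W) (_ : DecidableRel G.Adj),
    G.maxDegree = (∑ i, n i) + 2 ∧
      ∀ c : Sym2 W → ℕ, IsProperColouring G c → HasRainbowCopy (trianglePendants n) G c := by
  by_cases hone : ∃ i, ∀ j, j ≠ i → n j = 0
  · obtain ⟨i, hn⟩ := hone
    have hS : ∑ i, n i = n i := Finset.sum_eq_single i (fun j _ hj => hn j hj) (fun h => absurd (mem_univ i) h)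
    rw [hS]
    rcases Nat.even_or_odd (n i + 3) with he | ho
    · have h3 : 3 ≤ n i + 3 := by omega
      set a : Fin (n i + 3) := ⟨0, by omega⟩
      set b : Fin (n i + 3) := ⟨1, by omega⟩
      have hab : a ≠ b := by simp [a, b]
      refine ⟨Option (Fin (n i + 3)), inferInstance, Pool.Agent.H29.AR.subK a b, inferInstance, ?_,
        fun c hc => Pool.Agent.H29.AR.subK_host n i hn rfl he hab c hc⟩
      refine maxDegree_eq _ ?_ (some a) (Pool.Agent.H29.AR.subK_degree hab a)
      rintro (_ | v)
      · rw [← SimpleGraph.card_neighborFinset_eq_degree]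
        have : (Pool.Agent.H29.AR.subK a b).neighborFinset none ⊆ {some a, some b} := by
          intro y hy
          rw [SimpleGraph.mem_neighborFinset] at hy
          rcases y with _ | y
          · exact absurd hy (fun h => h)
          · rcases hy with rfl | rfl <;> simp
        exact (card_le_card this).trans (card_le_two.trans (by omega))
      · exact (Pool.Agent.H29.AR.subK_degree hab v).le
    · refine ⟨Fin (n i + 3), inferInstance, ⊤, inferInstance, ?_,
        fun c hc => Pool.Agent.H29.AR.complete_host n i hn rfl ho c hc⟩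
      refine maxDegree_eq _ (fun v => ?_) ⟨0, by omega⟩ ?_
      · rw [SimpleGraph.complete_graph_degree, Fintype.card_fin]; omega
      · rw [SimpleGraph.complete_graph_degree, Fintype.card_fin]; omega
  · push Not at hone
    obtain ⟨i, hi0, hi⟩ := hone 0
    obtain ⟨j, hj0, hj⟩ := hone i
    have hi' : 0 < n i := Nat.pos_of_ne_zero hi
    have hj' : 0 < n j := Nat.pos_of_ne_zero hj
    have hS2 : 2 ≤ ∑ i, n i := by
      have h1 : n i + n j ≤ ∑ k, n k := by
        rw [← Finset.sum_pair hj0.symm]
        exact Finset.sum_le_sum_of_subset (subset_univ _)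
      omega
    rcases Nat.even_or_odd (∑ i, n i) with he | ho
    · obtain ⟨t, ht⟩ := he
      have hd : 2 * (t + 1) = (∑ i, n i) + 2 := by omega
      refine ⟨Fin (t + 1) → Fin 3, inferInstance, Pool.Agent.H29.AR.ham (t + 1), inferInstance, ?_,
        fun c hc => Pool.Agent.H29.AR.even_host n hj0.symm hi' hj' hd c hc⟩
      have hdeg : ∀ v, (Pool.Agent.H29.AR.ham (t + 1)).degree v = (∑ i, n i) + 2 := fun v => by
        rw [← hd]
        convert Pool.Agent.H29.AR.ham_degree (t + 1) v
      exact maxDegree_eq _ (fun v => (hdeg v).le) (fun _ => 0) (hdeg _)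
    · obtain ⟨t, ht⟩ := ho
      have hd : 2 * (t + 1) + 1 = (∑ i, n i) + 2 := by omega
      have ht1 : 1 ≤ t := by omega
      set i0 : Fin (t + 1) := ⟨0, by omega⟩
      set j0 : Fin (t + 1) := ⟨1, by omega⟩
      have hij0 : j0 ≠ i0 := by simp [i0, j0]
      refine ⟨Option ((Fin (t + 1) → Fin 3) × Bool), inferInstance, Pool.Agent.H29.AR.oddHost i0, inferInstance, ?_,
        fun c hc => Pool.Agent.H29.AR.odd_host n hj0.symm hi' hj' hd i0 j0 hij0 c hc⟩
      refine maxDegree_eq _ ?_ (some (fun _ => 0, true)) (by rw [Pool.Agent.H29.AR.odd_degree, hd])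
      rintro (_ | ⟨v, b⟩)
      · rw [← SimpleGraph.card_neighborFinset_eq_degree]
        have : (Pool.Agent.H29.AR.oddHost i0).neighborFinset none ⊆
            {some (Pool.Agent.H29.AR.pp (t + 1), false), some (Pool.Agent.H29.AR.qq i0, false)} := by
          intro y hy
          rw [SimpleGraph.mem_neighborFinset] at hy
          rcases y with _ | ⟨y, b⟩
          · exact absurd hy (fun h => h)
          · obtain ⟨h1, h2⟩ := hy
            simp only at h1 h2
            subst h1
            rcases h2 with rfl | rfl <;> simp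
        exact (card_le_card this).trans (card_le_two.trans (by omega))
      · rw [Pool.Agent.H29.AR.odd_degree, hd]

/-- **Theorem.** Let `H` be a triangle with any numbers of pendant edges at its three vertices. There is
a finite graph of maximum degree exactly `e(H) - 1` all of whose proper edge colourings contain a rainbow
copy of `H`; so `AR_d(H) ≤ e(H) - 1`. -/
theorem result (n : Fin 3 → ℕ) :
    (∃ (W : Type) (_ : Fintype W) (G : SimpleGraph W) (_ : DecidableRel G.Adj),
      G.maxDegree + 1 = (trianglePendants n).edgeSet.ncard ∧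
        ∀ c : Sym2 W → ℕ, IsProperColouring G c → HasRainbowCopy (trianglePendants n) G c) ∧
    degreeAntiRamsey (trianglePendants n) + 1 ≤ (trianglePendants n).edgeSet.ncard := by
  obtain ⟨W, hW, G, hG, hd, hr⟩ := witness n
  refine ⟨⟨W, hW, G, hG, by rw [hd, ncard_edges], hr⟩, ?_⟩
  have h : degreeAntiRamsey (trianglePendants n) ≤ (∑ i, n i) + 2 := Nat.sInf_le ⟨W, hW, G, hG, hd, hr⟩
  rw [ncard_edges]
  omega

end Pool.Agent.Results.MP_1d1f41_co.TrianglePendants
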